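import Pool.Agent.W603.LV.Wr
import Pool.Agent.W603.LV.Hgt
import Pool.Agent.W603.LV.Defs
import Pool.Agent.W603.PV.Ext
import Pool.Agent.H159R3.Exp.Laur

/-!
Statements about function fields of one variable: the inequality for Wronskians, embeddings,
specialisation, heights along Laurent curves, units with given value at a point.
-/

set_option autoImplicit false

open MvPolynomial FF Pool.Agent.W603.LV

namespace Pool.Agent.N754.FV

open Pool.Agent.H159R3.Exp (Laur)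

/-- the inequality for Wronskians -/
def WR : Prop := ∀ (k K : Type) [Field k] [Field K] [Algebra k K] [CharZero k] [IsAlgClosed k]
  [IsFF k K] (S : Finset (Place k K)) (N : ℕ) (κ : Type) (B : κ → Fin N → K),
  (∀ c a, ∀ P ∉ S, Ge P 0 (B c a)) → (∀ c, LinearIndependent k (B c)) →
  (∀ c c', Submodule.span k (Set.range (B c)) = Submodule.span k (Set.range (B c'))) →
  ∀ s : Place k K → κ, ∑ P ∈ S, ∑ a, P.ord (B (s P) a) ≤ tri N * euler S

/-- function fields of one variable can be embedded into algebraically closed fields, and their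
canonical degree is at least `-2` -/
def EMB : Prop := ∀ (k K : Type) [Field k] [Field K] [Algebra k K] [CharZero k] [IsAlgClosed k]
  [IsFF k K], -2 ≤ canDeg k K ∧
  ∀ (Ω : Type) [Field Ω] [IsAlgClosed Ω] [Algebra k Ω], (∃ z : Ω, Transcendental k z) →
    Nonempty (K →ₐ[k] Ω)

/-- specialisation of finitely many elements -/
def SPE : Prop := ∀ (F Ω M : Type) [Field F] [Field Ω] [Field M] [Algebra F Ω] [Algebra F M]
  [IsAlgClosed Ω] (T : Finset M) (b : Algebra.adjoin F (T : Set M)), b ≠ 0 →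
  ∃ φ : Algebra.adjoin F (T : Set M) →ₐ[F] Ω, φ b ≠ 0

/-- specialisation of pairs of points -/
def SP2 : Prop := ∀ (F Ω M : Type) [Field F] [Field Ω] [Field M] [Algebra F Ω] [Algebra F M]
  [IsAlgClosed Ω] (ι : Type) (n : ℕ) (E : ι → MvPolynomial (Fin n) F)
  (G : MvPolynomial (Fin n) F) (U : Finset (Fin n)) (y z : Fin n → M),
  (∀ l, aeval y (E l) = 0) → (∀ l, aeval z (E l) = 0) → (∀ i ∈ U, z i = y i) → z ≠ y →
  aeval y G ≠ 0 →
  ∃ y' z' : Fin n → Ω, (∀ l, aeval y' (E l) = 0) ∧ (∀ l, aeval z' (E l) = 0) ∧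
    (∀ i ∈ U, z' i = y' i) ∧ z' ≠ y' ∧ aeval y' G ≠ 0

/-- specialisation of Laurent curves -/
def SPL : Prop := ∀ (F Ω M : Type) [Field F] [CharZero F] [Field Ω] [Field M] [Algebra F Ω]
  [Algebra F M] [IsAlgClosed Ω] (ι : Type) (n : ℕ) (E : ι → MvPolynomial (Fin n) F)
  (G : MvPolynomial (Fin n) F) (v : M → Fin n → M), (∀ j, Laur fun t => v t j) →
  (∀ l s, s ≠ 0 → aeval (v s) (E l) = 0) → (∃ j, v 2 j ≠ v 1 j) → aeval (v 1) G ≠ 0 →
  ∃ v' : Ω → Fin n → Ω, (∀ j, Laur fun t => v' t j) ∧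
    (∀ l s, s ≠ 0 → aeval (v' s) (E l) = 0) ∧ (∃ j, v' 2 j ≠ v' 1 j) ∧ aeval (v' 1) G ≠ 0

/-- points of large height on Laurent curves over the algebraic closure of a function field -/
def LH : Prop := ∀ (k F Ω : Type) [Field k] [IsAlgClosed k] [CharZero k] [Field F] [Algebra k F]
  [IsFF k F] [Field Ω] [Algebra F Ω] [Algebra.IsAlgebraic F Ω] (n : ℕ) (v : Ω → Fin n → Ω),
  (∀ j, Laur fun t => v t j) → (∃ s s', s ≠ 0 ∧ s' ≠ 0 ∧ v s ≠ v s') →
  ∀ G : MvPolynomial (Fin n) F, (∃ s, s ≠ 0 ∧ aeval (v s) G ≠ 0) →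
  ∃ (L : Type) (_ : Field L) (_ : Algebra k L) (_ : Algebra F L) (_ : IsScalarTower k F L)
    (_ : FiniteDimensional F L) (τ : L →ₐ[F] Ω) (S : Finset (Place k L)), ∀ C : ℤ,
    ∃ x : Fin n → L, (∃ s, s ≠ 0 ∧ (fun j => τ (x j)) = v s) ∧
      (∀ j, ∀ P ∉ S, 0 ≤ P.ord (x j)) ∧ aeval x G ≠ 0 ∧ C < mapDeg k x

/-- maps of large degree from the multiplicative group to a Laurent curve -/
def RC : Prop := ∀ (k : Type) [Field k] [IsAlgClosed k] [CharZero k] (n : ℕ) (v : k → Fin n → k),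
  (∀ j, Laur fun t => v t j) → (∃ s s', s ≠ 0 ∧ s' ≠ 0 ∧ v s ≠ v s') → ∀ s0 : k, s0 ≠ 0 →
  ∃ (S : Finset (Place k (RatFunc k))) (P0 : Place k (RatFunc k)), P0 ∉ S ∧ euler S = 0 ∧
    ∀ C : ℤ, ∃ f : Fin n → RatFunc k, (∀ j, ∀ P ∉ S, 0 ≤ P.ord (f j)) ∧ C < mapDeg k f ∧
      (∀ Q : MvPolynomial (Fin n) k, (∀ s, s ≠ 0 → eval (v s) Q = 0) → aeval f Q = 0) ∧
      ∀ j, Ge P0 1 (f j - algebraMap k (RatFunc k) (v s0 j))

/-- there are only finitely many units of bounded height with a given value at a point -/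
def PTU : Prop := ∀ (k K : Type) [Field k] [Field K] [Algebra k K] [CharZero k] [IsAlgClosed k]
  [IsFF k K] (S : Finset (Place k K)) (B : ℤ) (P0 : Place k K), P0 ∉ S → ∀ c : k, c ≠ 0 →
  {f : K | f ≠ 0 ∧ (∀ P ∉ S, P.ord f = 0) ∧ hgt k f ≤ B ∧ Ge P0 1 (f - algebraMap k K c)}.Finite

end Pool.Agent.N754.FV
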