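import Mathlib
import Pool.Agent.H159R3.Exp.Laur
import Pool.Agent.N754.LT.Str2

/-!
Germs along an ultrafilter with values in an algebraically closed field.
-/

set_option autoImplicit false
set_option linter.unusedSectionVars false

open Finset MvPolynomial Filter

namespace Pool.Agent.N754.FV

open Pool.Agent.H159R3.Exp (Laur)

variable {Ω : Type} [Field Ω] {α : Type} (𝒰 : Ultrafilter α)

/-- germs of complex functions -/
abbrev GC (Ω : Type) [Field Ω] (α : Type) (𝒰 : Ultrafilter α) : Type := Germ (𝒰 : Filter α) Ω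

/-- the germ of a function -/
noncomputable def gc : (α → Ω) →+* GC Ω α 𝒰 := Germ.coeRingHom (𝒰 : Filter α)

theorem gc_eq (f g : α → Ω) : gc 𝒰 f = gc 𝒰 g ↔ ∀ᶠ t in (𝒰 : Filter α), f t = g t :=
  Germ.coe_eq

theorem gc_surj (x : GC Ω α 𝒰) : ∃ f : α → Ω, gc 𝒰 f = x := by
  induction x using Germ.inductionOn with
  | _ f => exact ⟨f, rfl⟩

theorem gc_zero (f : α → Ω) : gc 𝒰 f = 0 ↔ ∀ᶠ t in (𝒰 : Filter α), f t = 0 := by
  rw [← map_zero (gc 𝒰), gc_eq]
  rfl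

instance gc_closed [IsAlgClosed Ω] : IsAlgClosed (GC Ω α 𝒰) := by
  classical
  refine IsAlgClosed.of_exists_root _ fun p hp hirr => ?_
  choose a ha using fun i => gc_surj 𝒰 (p.coeff i)
  set d : ℕ := p.natDegree with hd
  have hd0 : d ≠ 0 := by
    intro h
    have h1 := hirr.natDegree_pos
    omega
  let P : α → Polynomial Ω := fun t => Polynomial.X ^ d +
    ∑ i ∈ Finset.range d, Polynomial.C (a i t) * Polynomial.X ^ i
  have hlt : ∀ t, (∑ i ∈ Finset.range d, Polynomial.C (a i t) * Polynomial.X ^ i :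
      Polynomial Ω).degree < d := by
    intro t
    refine (Polynomial.degree_sum_le _ _).trans_lt ?_
    refine (Finset.sup_lt_iff (WithBot.bot_lt_coe d)).2 fun i hi => ?_
    refine (Polynomial.degree_C_mul_X_pow_le _ _).trans_lt ?_
    exact Nat.cast_lt.2 (Finset.mem_range.1 hi)
  have hdeg : ∀ t, (P t).degree ≠ 0 := by
    intro t
    simp only [P]
    rw [Polynomial.degree_add_eq_left_of_degree_lt (by rw [Polynomial.degree_X_pow]; exact hlt t),
      Polynomial.degree_X_pow]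
    exact_mod_cast hd0
  choose ξ hξ using fun t => IsAlgClosed.exists_root (P t) (hdeg t)
  refine ⟨gc 𝒰 ξ, ?_⟩
  rw [Polynomial.eval_eq_sum_range, Finset.sum_range_succ, ← hd]
  have h1 : p.coeff d = 1 := hp.coeff_natDegree
  rw [h1, one_mul]
  have h2 : ∑ i ∈ Finset.range d, p.coeff i * gc 𝒰 ξ ^ i + gc 𝒰 ξ ^ d =
      gc 𝒰 (∑ i ∈ Finset.range d, a i * ξ ^ i + ξ ^ d) := by
    rw [map_add, map_sum, map_pow]
    congr 1
    refine Finset.sum_congr rfl fun i _ => ?_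
    rw [map_mul, map_pow, ha]
  rw [h2, gc_zero]
  refine Filter.Eventually.of_forall fun t => ?_
  have h3 := hξ t
  simp only [P, Polynomial.IsRoot.def, Polynomial.eval_add, Polynomial.eval_pow,
    Polynomial.eval_X, Polynomial.eval_finsetSum, Polynomial.eval_mul, Polynomial.eval_C] at h3
  rw [Pi.add_apply, Finset.sum_apply, Pi.pow_apply, add_comm]
  exact h3

/-- values of polynomials at germs -/
theorem gc_eval {R : Type} [CommRing R] (τ : R →+* Ω) {n : ℕ} (z : α → Fin n → Ω)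
    (P : MvPolynomial (Fin n) R) :
    eval₂ ((gc 𝒰).comp ((Pi.constRingHom α Ω).comp τ)) (fun j => gc 𝒰 fun t => z t j) P =
      gc 𝒰 fun t => eval₂ τ (z t) P := by
  have h1 := hom_eval₂ P ((Pi.constRingHom α Ω).comp τ) (gc 𝒰) (fun j => fun t => z t j)
  rw [← h1]
  congr 1
  funext t
  have h2 := hom_eval₂ P ((Pi.constRingHom α Ω).comp τ) (Pi.evalRingHom (fun _ : α => Ω) t)
    (fun j => fun t => z t j)
  exact h2

/-- a second germ gives second points -/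
theorem gc_second {R : Type} [CommRing R] (τ : R →+* Ω) {n : ℕ} (U : Finset (Fin n)) {ι : Type}
    [Finite ι] (F : ι → MvPolynomial (Fin n) R) (y : α → Fin n → Ω)
    (h : ∃ z : Fin n → GC Ω α 𝒰, (∀ l, eval₂ ((gc 𝒰).comp ((Pi.constRingHom α Ω).comp τ)) z (F l) = 0) ∧
      (∀ i ∈ U, z i = gc 𝒰 fun t => y t i) ∧ z ≠ fun j => gc 𝒰 fun t => y t j) :
    ∀ᶠ t in (𝒰 : Filter α), ∃ z' : Fin n → Ω, (∀ l, eval₂ τ z' (F l) = 0) ∧
      (∀ i ∈ U, z' i = y t i) ∧ z' ≠ y t := by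
  classical
  obtain ⟨z, h1, h2, h3⟩ := h
  choose ζ hζ using fun j => gc_surj 𝒰 (z j)
  have hz : z = fun j => gc 𝒰 fun t => ζ j t := funext fun j => (hζ j).symm
  obtain ⟨j0, hj0⟩ := Function.ne_iff.1 h3
  have e1 : ∀ᶠ t in (𝒰 : Filter α), ∀ l, eval₂ τ (fun j => ζ j t) (F l) = 0 := by
    refine (Filter.eventually_all).2 fun l => ?_
    have h4 := h1 l
    rw [hz, gc_eval 𝒰 τ (fun t j => ζ j t), gc_zero] at h4
    exact h4
  have e2 : ∀ᶠ t in (𝒰 : Filter α), ∀ i ∈ U, ζ i t = y t i := by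
    refine (Filter.eventually_all_finset U).2 fun i hi => ?_
    have h4 := h2 i hi
    rw [← hζ i, gc_eq] at h4
    exact h4
  have e3 : ∀ᶠ t in (𝒰 : Filter α), ζ j0 t ≠ y t j0 := by
    rw [← hζ j0, Ne, gc_eq] at hj0
    exact Ultrafilter.eventually_not.2 hj0
  filter_upwards [e1, e2, e3] with t g1 g2 g3
  exact ⟨fun j => ζ j t, g1, g2, fun h => g3 (congrFun h j0)⟩


theorem gc_div (f g : α → Ω) : gc 𝒰 (fun t => f t / g t) = gc 𝒰 f / gc 𝒰 g := rfl

theorem gc_curve [CharZero Ω] {R : Type} [CommRing R] (τ : R →+* Ω) {n : ℕ} (A : Finset (Fin n)) {ι : Type}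
    [Finite ι] (F : ι → MvPolynomial (Fin n) R) (y : α → Fin n → Ω)
    (h : ∃ v : GC Ω α 𝒰 → Fin n → GC Ω α 𝒰, (∀ j, Laur fun t => v t j) ∧
      (∀ l s, s ≠ 0 → eval₂ ((gc 𝒰).comp ((Pi.constRingHom α Ω).comp τ)) (v s) (F l) = 0) ∧
      (∀ i ∈ A, ∀ s, s ≠ 0 → v s i = gc 𝒰 fun t => y t i) ∧
      (v 1 = fun i => gc 𝒰 fun t => y t i) ∧ ∃ j, v 2 j ≠ v 1 j) :
    ∀ᶠ t in (𝒰 : Filter α), ∃ v : Ω → Fin n → Ω, (∀ j, Laur fun s => v s j) ∧
      (∀ l s, s ≠ 0 → eval₂ τ (v s) (F l) = 0) ∧ (∀ i ∈ A, ∀ s, s ≠ 0 → v s i = y t i) ∧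
      v 1 = y t ∧ ∃ j, v 2 j ≠ v 1 j := by
  classical
  obtain ⟨v, hv1, hv2, hv3, hv4, j0, hj0⟩ := h
  obtain ⟨M, Q, hQ⟩ := Laur.common v hv1
  choose a ha using fun (j : Fin n) (i : ℕ) => gc_surj 𝒰 ((Q j).coeff i)
  let P : Fin n → α → Polynomial Ω := fun j t =>
    ∑ i ∈ Finset.range ((Q j).natDegree + 1), Polynomial.C (a j i t) * Polynomial.X ^ i
  let V : α → Ω → Fin n → Ω := fun t s j => (P j t).eval s / s ^ M
  have hV : ∀ s : α → Ω, (∀ t, s t ≠ 0) → ∀ j, v (gc 𝒰 s) j = gc 𝒰 fun t => V t (s t) j := by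
    intro s hs j
    have hs0 : gc 𝒰 s ≠ 0 := by
      intro h
      obtain ⟨t, ht⟩ := ((gc_zero 𝒰 s).1 h).exists
      exact hs t ht
    rw [hQ _ hs0 j]
    have h1 : (fun t => V t (s t) j) = fun t => (P j t).eval (s t) / (s ^ M) t := by
      funext t
      rfl
    have h0 : gc 𝒰 (s ^ M) = gc 𝒰 s ^ M := map_pow (gc 𝒰) s M
    have h3 : (Q j).eval (gc 𝒰 s) = gc 𝒰 fun t => (P j t).eval (s t) := by
      rw [Polynomial.eval_eq_sum_range]
      have h2 : (fun t => (P j t).eval (s t)) =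
          ∑ i ∈ Finset.range ((Q j).natDegree + 1), a j i * s ^ i := by
        funext t
        simp only [P, Polynomial.eval_finsetSum, Polynomial.eval_mul, Polynomial.eval_C,
          Polynomial.eval_pow, Polynomial.eval_X, Finset.sum_apply, Pi.mul_apply, Pi.pow_apply]
      rw [h2, map_sum]
      refine Finset.sum_congr rfl fun i _ => ?_
      rw [map_mul, map_pow, ha]
    rw [h1, gc_div, h0, h3]
  have hone : gc 𝒰 (fun _ => (1 : Ω)) = 1 := map_one (gc 𝒰)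
  have htwo : gc 𝒰 (fun _ => (2 : Ω)) = 2 := map_ofNat (gc 𝒰) 2
  -- the equations
  have e1 : ∀ᶠ t in (𝒰 : Filter α), ∀ l, ∀ s : Ω, s ≠ 0 → eval₂ τ (V t s) (F l) = 0 := by
    refine (Filter.eventually_all).2 fun l => ?_
    by_contra hcon
    rw [← Ultrafilter.eventually_not] at hcon
    have h1 : ∀ t, ∃ s : Ω, s ≠ 0 ∧ ((¬ ∀ s : Ω, s ≠ 0 → eval₂ τ (V t s) (F l) = 0) →
        eval₂ τ (V t s) (F l) ≠ 0) := by
      intro t
      by_cases h : ∀ s : Ω, s ≠ 0 → eval₂ τ (V t s) (F l) = 0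
      · exact ⟨1, one_ne_zero, fun h' => absurd h h'⟩
      · push Not at h
        obtain ⟨s, hs, hs2⟩ := h
        exact ⟨s, hs, fun _ => hs2⟩
    choose s hs0 hs using h1
    have h2 : gc 𝒰 s ≠ 0 := by
      intro h
      obtain ⟨t, ht⟩ := ((gc_zero 𝒰 s).1 h).exists
      exact hs0 t ht
    have h3 := hv2 l (gc 𝒰 s) h2
    have h4 : v (gc 𝒰 s) = fun j => gc 𝒰 fun t => V t (s t) j := funext fun j => hV s hs0 j
    rw [h4, gc_eval 𝒰 τ (fun t j => V t (s t) j), gc_zero] at h3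
    obtain ⟨t, h5, h6⟩ := (h3.and hcon).exists
    exact hs t h6 h5
  have e2 : ∀ᶠ t in (𝒰 : Filter α), ∀ i ∈ A, ∀ s : Ω, s ≠ 0 → V t s i = y t i := by
    refine (Filter.eventually_all_finset A).2 fun i hi => ?_
    by_contra hcon
    rw [← Ultrafilter.eventually_not] at hcon
    have h1 : ∀ t, ∃ s : Ω, s ≠ 0 ∧ ((¬ ∀ s : Ω, s ≠ 0 → V t s i = y t i) → V t s i ≠ y t i) := by
      intro t
      by_cases h : ∀ s : Ω, s ≠ 0 → V t s i = y t i
      · exact ⟨1, one_ne_zero, fun h' => absurd h h'⟩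
      · push Not at h
        obtain ⟨s, hs, hs2⟩ := h
        exact ⟨s, hs, fun _ => hs2⟩
    choose s hs0 hs using h1
    have h2 : gc 𝒰 s ≠ 0 := by
      intro h
      obtain ⟨t, ht⟩ := ((gc_zero 𝒰 s).1 h).exists
      exact hs0 t ht
    have h3 := hv3 i hi (gc 𝒰 s) h2
    rw [hV s hs0 i, gc_eq] at h3
    obtain ⟨t, h5, h6⟩ := (h3.and hcon).exists
    exact hs t h6 h5
  have e3 : ∀ᶠ t in (𝒰 : Filter α), ∀ j, V t 1 j = y t j := by
    refine (Filter.eventually_all).2 fun j => ?_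
    have h1 := hV (fun _ => 1) (fun _ => one_ne_zero) j
    rw [hone, hv4, gc_eq] at h1
    filter_upwards [h1] with t h
    exact h.symm
  have e4 : ∀ᶠ t in (𝒰 : Filter α), V t 2 j0 ≠ V t 1 j0 := by
    rw [← hone, ← htwo, hV _ (fun _ => two_ne_zero) j0, hV _ (fun _ => one_ne_zero) j0, Ne,
      gc_eq] at hj0
    exact Ultrafilter.eventually_not.2 hj0
  filter_upwards [e1, e2, e3, e4] with t g1 g2 g3 g4
  refine ⟨V t, fun j => ?_, g1, g2, funext g3, j0, g4⟩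
  refine ⟨M, P j t, fun s hs => ?_⟩
  show (P j t).eval s / s ^ M * s ^ M = _
  rw [div_mul_cancel₀ _ (pow_ne_zero _ hs)]

end Pool.Agent.N754.FV
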