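import Mathlib
import Pool.Agent.N754.FV.Stm
import Pool.Agent.N754.FV.Grm
import Pool.Agent.N754.MT.Main

/-!
The ring of germs of sequences of functions which are regular outside finite sets of places, and
the dictionary.
-/

set_option autoImplicit false
set_option linter.unusedSectionVars false
set_option linter.overlappingInstances false

open MvPolynomial FF Pool.Agent.W603.LV Filter

namespace Pool.Agent.N754.FV

open Pool.Agent.H159R3.Exp (Laur)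
open Pool.Agent.N754.LT (Dc)

/-- sequences of function fields with finite sets of places and scales -/
structure Sy (k Ω α : Type) [Field k] [Field Ω] [Algebra k Ω] where
  K : α → Type
  [iF : ∀ t, Field (K t)]
  [iA : ∀ t, Algebra k (K t)]
  [iI : ∀ t, IsFF k (K t)]
  σ : ∀ t, K t →ₐ[k] Ω
  S : ∀ t, Finset (Place k (K t))
  o : ∀ t, Place k (K t) → ℝ
  N : α → ℝ
  o_nonneg : ∀ t, ∀ P, 0 ≤ o t P

attribute [instance] Sy.iF Sy.iA Sy.iI

variable {k Ω α : Type} [Field k] [Field Ω] [Algebra k Ω] (D : Sy k Ω α) (𝒰 : Ultrafilter α)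

/-- the conditions on the scales -/
structure Ok : Prop where
  osum : ∃ C : ℝ, 0 ≤ C ∧ ∀ᶠ t in (𝒰 : Filter α), ∑ P ∈ D.S t, D.o t P ≤ C * D.N t
  top : ∀ C : ℝ, ∀ᶠ t in (𝒰 : Filter α), C ≤ D.N t
  card : ∀ ε : ℝ, 0 < ε → ∀ᶠ t in (𝒰 : Filter α), ((D.S t).card : ℝ) ≤ ε * D.N t
  eul : ∀ ε : ℝ, 0 < ε → ∀ᶠ t in (𝒰 : Filter α), ((euler (D.S t) : ℤ) : ℝ) ≤ ε * D.N t

/-- bounded by the scale -/
def Bdd (x : ∀ t, D.K t) : Prop :=
  ∃ C : ℝ, 0 ≤ C ∧ ∀ᶠ t in (𝒰 : Filter α), ∀ P ∈ D.S t, -(P.ord (x t) : ℝ) ≤ C * D.o t P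

/-- regular outside the finite sets -/
def Int' (x : ∀ t, D.K t) : Prop := ∀ᶠ t in (𝒰 : Filter α), ∀ P ∉ D.S t, Ge P 0 (x t)

/-- the germ of a sequence -/
noncomputable def gs (x : ∀ t, D.K t) : GC Ω α 𝒰 := gc 𝒰 fun t => D.σ t (x t)

theorem gs_eq (x y : ∀ t, D.K t) : gs D 𝒰 x = gs D 𝒰 y ↔ ∀ᶠ t in (𝒰 : Filter α), x t = y t := by
  unfold gs
  rw [gc_eq]
  constructor
  · intro h
    filter_upwards [h] with t ht
    exact (D.σ t).toRingHom.injective ht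
  · intro h
    filter_upwards [h] with t ht
    rw [ht]

theorem gs_add (x y : ∀ t, D.K t) : gs D 𝒰 (fun t => x t + y t) = gs D 𝒰 x + gs D 𝒰 y := by
  unfold gs
  rw [← map_add]
  congr 1
  funext t
  exact map_add _ _ _

theorem gs_mul (x y : ∀ t, D.K t) : gs D 𝒰 (fun t => x t * y t) = gs D 𝒰 x * gs D 𝒰 y := by
  unfold gs
  rw [← map_mul]
  congr 1
  funext t
  exact map_mul _ _ _

theorem gs_one : gs D 𝒰 (fun _ => 1) = 1 := by
  unfold gs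
  rw [← map_one (gc 𝒰)]
  congr 1
  funext t
  exact map_one _

theorem gs_zero : gs D 𝒰 (fun _ => 0) = 0 := by
  unfold gs
  rw [← map_zero (gc 𝒰)]
  congr 1
  funext t
  exact map_zero _

theorem gs_neg (x : ∀ t, D.K t) : gs D 𝒰 (fun t => -x t) = -gs D 𝒰 x := by
  unfold gs
  rw [← map_neg]
  congr 1
  funext t
  exact map_neg _ _

section place

variable {K : Type} [Field K] [Algebra k K] (P : Place k K)

theorem neg_ord_add {f g : K} {a b : ℝ} (ha : -(P.ord f : ℝ) ≤ a) (hb : -(P.ord g : ℝ) ≤ b)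
    (ha0 : 0 ≤ a) (hb0 : 0 ≤ b) : -(P.ord (f + g) : ℝ) ≤ a + b := by
  by_cases hf : f = 0
  · rw [hf, zero_add]
    linarith
  by_cases hg : g = 0
  · rw [hg, add_zero]
    linarith
  by_cases h : f + g = 0
  · rw [h, P.ord_zero]
    push_cast
    linarith
  have h1 := P.ord_add hf hg h
  have h2 : (min (P.ord f) (P.ord g) : ℝ) ≤ (P.ord (f + g) : ℝ) := by exact_mod_cast h1
  rcases min_choice (P.ord f : ℝ) (P.ord g : ℝ) with h3 | h3 <;> rw [h3] at h2 <;> linarith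

theorem neg_ord_mul {f g : K} {a b : ℝ} (ha : -(P.ord f : ℝ) ≤ a) (hb : -(P.ord g : ℝ) ≤ b)
    (ha0 : 0 ≤ a) (hb0 : 0 ≤ b) : -(P.ord (f * g) : ℝ) ≤ a + b := by
  by_cases hf : f = 0
  · rw [hf, zero_mul, P.ord_zero]
    push_cast
    linarith
  by_cases hg : g = 0
  · rw [hg, mul_zero, P.ord_zero]
    push_cast
    linarith
  rw [P.ord_mul hf hg]
  push_cast
  linarith

end place

variable {D 𝒰}

theorem Bdd.add {x y : ∀ t, D.K t} (hx : Bdd D 𝒰 x) (hy : Bdd D 𝒰 y) :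
    Bdd D 𝒰 (fun t => x t + y t) := by
  obtain ⟨C, hC, h⟩ := hx
  obtain ⟨C', hC', h'⟩ := hy
  refine ⟨C + C', by positivity, ?_⟩
  filter_upwards [h, h'] with t g g' P hP
  have h0 := D.o_nonneg t P
  rw [add_mul]
  exact neg_ord_add P (g P hP) (g' P hP) (by positivity) (by positivity)

theorem Bdd.mul {x y : ∀ t, D.K t} (hx : Bdd D 𝒰 x) (hy : Bdd D 𝒰 y) :
    Bdd D 𝒰 (fun t => x t * y t) := by
  obtain ⟨C, hC, h⟩ := hx
  obtain ⟨C', hC', h'⟩ := hy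
  refine ⟨C + C', by positivity, ?_⟩
  filter_upwards [h, h'] with t g g' P hP
  have h0 := D.o_nonneg t P
  rw [add_mul]
  exact neg_ord_mul P (g P hP) (g' P hP) (by positivity) (by positivity)

theorem Bdd.neg {x : ∀ t, D.K t} (hx : Bdd D 𝒰 x) : Bdd D 𝒰 (fun t => -x t) := by
  obtain ⟨C, hC, h⟩ := hx
  refine ⟨C, hC, ?_⟩
  filter_upwards [h] with t g P hP
  rw [P.ord_neg]
  exact g P hP

theorem Bdd.const (c : α → k) : Bdd D 𝒰 (fun t => algebraMap k (D.K t) (c t)) := by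
  refine ⟨0, le_refl _, Eventually.of_forall fun t P _ => ?_⟩
  rw [zero_mul]
  show -((P.ord (algebraMap k (D.K t) (c t)) : ℤ) : ℝ) ≤ 0
  by_cases hc : c t = 0
  · rw [hc, map_zero, P.ord_zero]
    simp
  · rw [P.ord_const hc]
    simp

theorem Int'.add {x y : ∀ t, D.K t} (hx : Int' D 𝒰 x) (hy : Int' D 𝒰 y) :
    Int' D 𝒰 (fun t => x t + y t) := by
  filter_upwards [hx, hy] with t g g' P hP
  exact (g P hP).add (g' P hP)

theorem Int'.mul {x y : ∀ t, D.K t} (hx : Int' D 𝒰 x) (hy : Int' D 𝒰 y) :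
    Int' D 𝒰 (fun t => x t * y t) := by
  filter_upwards [hx, hy] with t g g' P hP
  have := (g P hP).mul (g' P hP)
  rwa [add_zero] at this

theorem Int'.neg {x : ∀ t, D.K t} (hx : Int' D 𝒰 x) : Int' D 𝒰 (fun t => -x t) := by
  filter_upwards [hx] with t g P hP
  exact (g P hP).neg

theorem Int'.const (c : α → k) : Int' D 𝒰 (fun t => algebraMap k (D.K t) (c t)) :=
  Eventually.of_forall fun t _ _ => Ge.const (c t)

variable (D 𝒰)

/-- the ring of germs -/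
def rS : Subring (GC Ω α 𝒰) where
  carrier := {b | ∃ x : ∀ t, D.K t, b = gs D 𝒰 x ∧ Int' D 𝒰 x ∧ Bdd D 𝒰 x}
  mul_mem' := by
    rintro _ _ ⟨x, rfl, hx, hx'⟩ ⟨y, rfl, hy, hy'⟩
    exact ⟨_, (gs_mul D 𝒰 x y).symm, hx.mul hy, hx'.mul hy'⟩
  one_mem' := by
    refine ⟨fun _ => 1, (gs_one D 𝒰).symm, ?_, ?_⟩
    · have := Int'.const (D := D) (𝒰 := 𝒰) fun _ => 1
      simpa using this
    · have := Bdd.const (D := D) (𝒰 := 𝒰) fun _ => 1
      simpa using this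
  add_mem' := by
    rintro _ _ ⟨x, rfl, hx, hx'⟩ ⟨y, rfl, hy, hy'⟩
    exact ⟨_, (gs_add D 𝒰 x y).symm, hx.add hy, hx'.add hy'⟩
  zero_mem' := by
    refine ⟨fun _ => 0, (gs_zero D 𝒰).symm, ?_, ?_⟩
    · have := Int'.const (D := D) (𝒰 := 𝒰) fun _ => 0
      simpa using this
    · have := Bdd.const (D := D) (𝒰 := 𝒰) fun _ => 0
      simpa using this
  neg_mem' := by
    rintro _ ⟨x, rfl, hx, hx'⟩
    exact ⟨_, (gs_neg D 𝒰 x).symm, hx.neg, hx'.neg⟩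

/-- the field of germs of constants -/
def kS (k Ω : Type) {α : Type} [Field k] [Field Ω] [Algebra k Ω] (𝒰 : Ultrafilter α) :
    Subfield (GC Ω α 𝒰) where
  carrier := {b | ∃ c : α → k, b = gc 𝒰 fun t => algebraMap k Ω (c t)}
  mul_mem' := by
    rintro _ _ ⟨c, rfl⟩ ⟨c', rfl⟩
    refine ⟨fun t => c t * c' t, ?_⟩
    rw [← map_mul]
    congr 1
    funext t
    exact (map_mul _ _ _).symm
  one_mem' := by
    refine ⟨fun _ => 1, ?_⟩
    rw [← map_one (gc 𝒰)]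
    congr 1
    funext t
    exact (map_one _).symm
  add_mem' := by
    rintro _ _ ⟨c, rfl⟩ ⟨c', rfl⟩
    refine ⟨fun t => c t + c' t, ?_⟩
    rw [← map_add]
    congr 1
    funext t
    exact (map_add _ _ _).symm
  zero_mem' := by
    refine ⟨fun _ => 0, ?_⟩
    rw [← map_zero (gc 𝒰)]
    congr 1
    funext t
    exact (map_zero _).symm
  neg_mem' := by
    rintro _ ⟨c, rfl⟩
    refine ⟨fun t => -c t, ?_⟩
    rw [← map_neg]
    congr 1
    funext t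
    exact (map_neg _ _).symm
  inv_mem' := by
    rintro _ ⟨c, rfl⟩
    refine ⟨fun t => (c t)⁻¹, ?_⟩
    have h1 : (gc 𝒰 fun t => algebraMap k Ω (c t))⁻¹ =
        gc 𝒰 fun t => (algebraMap k Ω (c t))⁻¹ := rfl
    rw [h1]
    congr 1
    funext t
    rw [map_inv₀]

/-- the field of germs of constants -/
def K0 (k Ω : Type) {α : Type} [Field k] [Field Ω] [Algebra k Ω] (𝒰 : Ultrafilter α) : Type :=
  kS k Ω 𝒰

noncomputable instance : Field (K0 k Ω 𝒰) := inferInstanceAs (Field (kS k Ω 𝒰))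

/-- the ring of germs -/
def R0 : Type := rS D 𝒰

noncomputable instance : CommRing (R0 D 𝒰) := inferInstanceAs (CommRing (rS D 𝒰))

instance : IsDomain (R0 D 𝒰) := inferInstanceAs (IsDomain (rS D 𝒰))

/-- values -/
noncomputable def kV : K0 k Ω 𝒰 →+* GC Ω α 𝒰 := (kS k Ω 𝒰).subtype

/-- values -/
noncomputable def rV : R0 D 𝒰 →+* GC Ω α 𝒰 := (rS D 𝒰).subtype

theorem kV_inj : Function.Injective (kV (k := k) (Ω := Ω) 𝒰) := Subtype.val_injective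

theorem rV_inj : Function.Injective (rV D 𝒰) := Subtype.val_injective

theorem gs_const (c : α → k) : gs D 𝒰 (fun t => algebraMap k (D.K t) (c t)) =
    gc 𝒰 fun t => algebraMap k Ω (c t) := by
  unfold gs
  congr 1
  funext t
  exact (D.σ t).commutes _

/-- the inclusion -/
noncomputable def kR : K0 k Ω 𝒰 →+* R0 D 𝒰 :=
  (kV (k := k) (Ω := Ω) 𝒰).codRestrict (rS D 𝒰) (by
    rintro ⟨b, c, hc⟩
    exact ⟨fun t => algebraMap k (D.K t) (c t), hc.trans (gs_const D 𝒰 c).symm, Int'.const c,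
      Bdd.const c⟩)

theorem rV_kR (c : K0 k Ω 𝒰) : rV D 𝒰 (kR D 𝒰 c) = kV 𝒰 c := rfl

noncomputable instance : Algebra (K0 k Ω 𝒰) (R0 D 𝒰) := (kR D 𝒰).toAlgebra

theorem algebraMap_kR (c : K0 k Ω 𝒰) : algebraMap (K0 k Ω 𝒰) (R0 D 𝒰) c = kR D 𝒰 c := rfl

variable {D 𝒰}

/-- a representative -/
noncomputable def rp (b : R0 D 𝒰) : ∀ t, D.K t := b.2.choose

theorem rp_eq (b : R0 D 𝒰) : rV D 𝒰 b = gs D 𝒰 (rp b) := b.2.choose_spec.1

theorem rp_int (b : R0 D 𝒰) : Int' D 𝒰 (rp b) := b.2.choose_spec.2.1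

theorem rp_bdd (b : R0 D 𝒰) : Bdd D 𝒰 (rp b) := b.2.choose_spec.2.2

theorem rp_uniq (b : R0 D 𝒰) (x : ∀ t, D.K t) (h : rV D 𝒰 b = gs D 𝒰 x) :
    ∀ᶠ t in (𝒰 : Filter α), rp b t = x t := by
  rw [rp_eq, gs_eq] at h
  exact h

theorem rp_zero : ∀ᶠ t in (𝒰 : Filter α), rp (0 : R0 D 𝒰) t = 0 :=
  rp_uniq 0 _ ((map_zero _).trans (gs_zero D 𝒰).symm)

theorem rp_one : ∀ᶠ t in (𝒰 : Filter α), rp (1 : R0 D 𝒰) t = 1 :=
  rp_uniq 1 _ ((map_one _).trans (gs_one D 𝒰).symm)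

theorem rp_add (a b : R0 D 𝒰) : ∀ᶠ t in (𝒰 : Filter α), rp (a + b) t = rp a t + rp b t :=
  rp_uniq _ _ (by rw [map_add, rp_eq, rp_eq, gs_add])

theorem rp_mul (a b : R0 D 𝒰) : ∀ᶠ t in (𝒰 : Filter α), rp (a * b) t = rp a t * rp b t :=
  rp_uniq _ _ (by rw [map_mul, rp_eq, rp_eq, gs_mul])

theorem rp_sum {ι : Type} (s : Finset ι) (a : ι → R0 D 𝒰) :
    ∀ᶠ t in (𝒰 : Filter α), rp (∑ i ∈ s, a i) t = ∑ i ∈ s, rp (a i) t := by
  classical
  induction s using Finset.induction_on with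
  | empty => simpa using rp_zero
  | insert i s hi ih =>
    simp only [Finset.sum_insert hi]
    filter_upwards [ih, rp_add (a i) (∑ i ∈ s, a i)] with t h1 h2
    rw [h2, h1]

theorem rp_ne_zero (b : R0 D 𝒰) (hb : b ≠ 0) : ∀ᶠ t in (𝒰 : Filter α), rp b t ≠ 0 := by
  rw [Ultrafilter.eventually_not]
  intro h
  apply hb
  apply rV_inj D 𝒰
  rw [map_zero, rp_eq, ← gs_zero D 𝒰, gs_eq]
  exact h

/-- a representative of a constant -/
noncomputable def cp (c : K0 k Ω 𝒰) : α → k := c.2.choose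

theorem cp_eq (c : K0 k Ω 𝒰) : kV 𝒰 c = gc 𝒰 fun t => algebraMap k Ω (cp c t) := c.2.choose_spec

theorem rp_const (c : K0 k Ω 𝒰) :
    ∀ᶠ t in (𝒰 : Filter α), rp (algebraMap (K0 k Ω 𝒰) (R0 D 𝒰) c) t =
      algebraMap k (D.K t) (cp c t) :=
  rp_uniq _ _ (by rw [algebraMap_kR, rV_kR, cp_eq, gs_const])

theorem cp_ne_zero (c : K0 k Ω 𝒰) (hc : c ≠ 0) : ∀ᶠ t in (𝒰 : Filter α), cp c t ≠ 0 := by
  rw [Ultrafilter.eventually_not]
  intro h
  apply hc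
  apply kV_inj 𝒰
  rw [map_zero, cp_eq, gc_zero]
  filter_upwards [h] with t ht
  rw [ht, map_zero]

/-- the constant of a family -/
noncomputable def mkc (c : α → k) : K0 k Ω 𝒰 :=
  (⟨gc 𝒰 fun t => algebraMap k Ω (c t), c, rfl⟩ : kS k Ω 𝒰)

theorem kV_mkc (c : α → k) : kV (Ω := Ω) 𝒰 (mkc c) = gc 𝒰 fun t => algebraMap k Ω (c t) := rfl

theorem cp_mkc (c : α → k) : ∀ᶠ t in (𝒰 : Filter α), cp (mkc c : K0 k Ω 𝒰) t = c t := by
  have h1 := cp_eq (mkc c : K0 k Ω 𝒰)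
  rw [kV_mkc, gc_eq] at h1
  filter_upwards [h1] with t ht
  exact (algebraMap k Ω).injective ht.symm

/-- the element with a given representative -/
noncomputable def mkr (x : ∀ t, D.K t) (h1 : Int' D 𝒰 x) (h2 : Bdd D 𝒰 x) : R0 D 𝒰 :=
  (⟨gs D 𝒰 x, x, rfl, h1, h2⟩ : rS D 𝒰)

theorem rV_mkr (x : ∀ t, D.K t) (h1 : Int' D 𝒰 x) (h2 : Bdd D 𝒰 x) :
    rV D 𝒰 (mkr x h1 h2) = gs D 𝒰 x := rfl

theorem rp_mkr (x : ∀ t, D.K t) (h1 : Int' D 𝒰 x) (h2 : Bdd D 𝒰 x) :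
    ∀ᶠ t in (𝒰 : Filter α), rp (mkr x h1 h2) t = x t := rp_uniq _ _ rfl

end Pool.Agent.N754.FV
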