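import Mathlib
import Pool.Agent.N754.FV.Rng

/-!
The dictionary for function fields.
-/

set_option autoImplicit false
set_option linter.unusedSectionVars false
set_option linter.overlappingInstances false

open MvPolynomial FF Pool.Agent.W603.LV Filter

namespace Pool.Agent.N754.FV

open Pool.Agent.H159R3.Exp (Laur)
open Pool.Agent.N754.LT (Dc)

variable {k Ω α : Type} [Field k] [Field Ω] [Algebra k Ω] (D : Sy k Ω α) (𝒰 : Ultrafilter α)

/-- pairs of an index and a place -/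
abbrev Om : Type := Σ t, {P // P ∈ D.S t}

/-- for almost all indices and all places -/
def evF : Filter (Om D) := (𝒰 : Filter α).comap Sigma.fst

theorem ev_iff (p : Om D → Prop) :
    (∀ᶠ ω in evF D 𝒰, p ω) ↔ ∀ᶠ t in (𝒰 : Filter α), ∀ P : {P // P ∈ D.S t}, p ⟨t, P⟩ := by
  unfold evF
  rw [eventually_comap]
  constructor
  · intro h
    filter_upwards [h] with t ht P
    exact ht ⟨t, P⟩ rfl
  · intro h
    filter_upwards [h] with t ht
    rintro ⟨t', P⟩ rfl
    exact ht P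

variable {D 𝒰}

/-- absolute values -/
noncomputable def AV (b : R0 D 𝒰) (ω : Om D) : ℝ :=
  open Classical in if rp b ω.1 = 0 then 0 else Real.exp (-(ω.2.1.ord (rp b ω.1) : ℝ))

theorem AV_zero {b : R0 D 𝒰} {ω : Om D} (h : rp b ω.1 = 0) : AV b ω = 0 := by
  unfold AV
  rw [if_pos h]

theorem AV_ne {b : R0 D 𝒰} {ω : Om D} (h : rp b ω.1 ≠ 0) :
    AV b ω = Real.exp (-(ω.2.1.ord (rp b ω.1) : ℝ)) := by
  unfold AV
  rw [if_neg h]

theorem log_AV {b : R0 D 𝒰} {ω : Om D} (h : rp b ω.1 ≠ 0) :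
    Real.log (AV b ω) = -(ω.2.1.ord (rp b ω.1) : ℝ) := by
  rw [AV_ne h, Real.log_exp]

theorem AV_nonneg (b : R0 D 𝒰) (ω : Om D) : 0 ≤ AV b ω := by
  unfold AV
  split_ifs
  · exact le_refl _
  · exact (Real.exp_pos _).le

variable (D 𝒰) in
/-- negligible functions -/
def NegS (f : Om D → ℝ) : Prop :=
  ∀ ε : ℝ, 0 < ε → ∀ᶠ t in (𝒰 : Filter α), ∑ P : {P // P ∈ D.S t}, f ⟨t, P⟩ ≤ ε * D.N t

theorem li_rp {N : ℕ} (B : Fin N → R0 D 𝒰) (h : LinearIndependent (K0 k Ω 𝒰) B) :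
    ∀ᶠ t in (𝒰 : Filter α), LinearIndependent k (fun a => rp (B a) t) := by
  classical
  by_contra hcon
  rw [← Ultrafilter.eventually_not] at hcon
  have h1 : ∀ t, ∃ c : Fin N → k, (¬ LinearIndependent k (fun a => rp (B a) t)) →
      ∑ a, c a • rp (B a) t = 0 ∧ ∃ a, c a ≠ 0 := by
    intro t
    by_cases hl : LinearIndependent k (fun a => rp (B a) t)
    · exact ⟨0, fun h => absurd hl h⟩
    · obtain ⟨c, hc, a, ha⟩ := Fintype.not_linearIndependent_iff.1 hl
      exact ⟨c, fun _ => ⟨hc, a, ha⟩⟩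
  choose c hc using h1
  have h2 : ∑ a, (mkc (fun t => c t a) : K0 k Ω 𝒰) • B a = 0 := by
    apply rV_inj D 𝒰
    rw [map_zero, rp_eq, ← gs_zero D 𝒰, gs_eq]
    have h3 : ∀ᶠ t in (𝒰 : Filter α), ∀ a, rp ((mkc (fun t => c t a) : K0 k Ω 𝒰) • B a) t =
        c t a • rp (B a) t := by
      refine (eventually_all).2 fun a => ?_
      rw [Algebra.smul_def]
      filter_upwards [rp_mul (algebraMap (K0 k Ω 𝒰) (R0 D 𝒰) (mkc fun t => c t a)) (B a),
        rp_const (D := D) (mkc (fun t => c t a) : K0 k Ω 𝒰),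
        cp_mkc (Ω := Ω) (𝒰 := 𝒰) (fun t => c t a)] with t g1 g2 g3
      rw [g1, g2, g3, Algebra.smul_def]
    filter_upwards [rp_sum Finset.univ (fun a => (mkc (fun t => c t a) : K0 k Ω 𝒰) • B a), h3,
      hcon] with t g1 g2 g3
    rw [g1, Finset.sum_congr rfl fun a _ => g2 a]
    exact (hc t g3).1
  have h3 := Fintype.linearIndependent_iff.1 h _ h2
  have h4 : ∀ᶠ t in (𝒰 : Filter α), ∀ a, c t a = 0 := by
    refine (eventually_all).2 fun a => ?_
    have h5 := h3 a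
    by_contra hcon2
    rw [← Ultrafilter.eventually_not] at hcon2
    have h6 : kV (k := k) (Ω := Ω) 𝒰 (mkc fun t => c t a) = 0 := by rw [h5, map_zero]
    rw [kV_mkc, gc_zero] at h6
    obtain ⟨t, g1, g2⟩ := (h6.and hcon2).exists
    exact g2 ((map_eq_zero _).1 g1)
  obtain ⟨t, g1, g2⟩ := (h4.and hcon).exists
  obtain ⟨a, ha⟩ := (hc t g2).2
  exact ha (g1 a)

theorem span_rp {N : ℕ} (B B' : Fin N → R0 D 𝒰)
    (h : Submodule.span (K0 k Ω 𝒰) (Set.range B) ≤ Submodule.span (K0 k Ω 𝒰) (Set.range B')) :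
    ∀ᶠ t in (𝒰 : Filter α), Submodule.span k (Set.range fun a => rp (B a) t) ≤
      Submodule.span k (Set.range fun a => rp (B' a) t) := by
  classical
  have h1 : ∀ a, ∃ f : Fin N → K0 k Ω 𝒰, ∑ l, f l • B' l = B a := by
    intro a
    rw [← Submodule.mem_span_range_iff_exists_fun]
    exact h (Submodule.subset_span ⟨a, rfl⟩)
  choose f hf using h1
  have h2 : ∀ᶠ t in (𝒰 : Filter α), ∀ a, rp (B a) t = ∑ l, cp (f a l) t • rp (B' l) t := by
    refine (eventually_all).2 fun a => ?_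
    have h3 : ∀ᶠ t in (𝒰 : Filter α), ∀ l, rp (f a l • B' l) t = cp (f a l) t • rp (B' l) t := by
      refine (eventually_all).2 fun l => ?_
      rw [Algebra.smul_def]
      filter_upwards [rp_mul (algebraMap (K0 k Ω 𝒰) (R0 D 𝒰) (f a l)) (B' l),
        rp_const (D := D) (f a l)] with t g1 g2
      rw [g1, g2, Algebra.smul_def]
    filter_upwards [rp_sum Finset.univ (fun l => f a l • B' l), h3] with t g1 g2
    rw [← hf a, g1]
    exact Finset.sum_congr rfl fun l _ => g2 l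
  filter_upwards [h2] with t ht
  rw [Submodule.span_le]
  rintro _ ⟨a, rfl⟩
  show rp (B a) t ∈ _
  rw [ht a]
  exact Submodule.sum_mem _ fun l _ => Submodule.smul_mem _ _ (Submodule.subset_span ⟨l, rfl⟩)

theorem smtS [IsAlgClosed k] [CharZero k] (hWR : WR) (hok : Ok D 𝒰) (N : ℕ) (κ : Type) [Finite κ]
    (B : κ → Fin N → R0 D 𝒰) (hli : ∀ c, LinearIndependent (K0 k Ω 𝒰) (B c))
    (hsp : ∀ c c', Submodule.span (K0 k Ω 𝒰) (Set.range (B c)) =
      Submodule.span (K0 k Ω 𝒰) (Set.range (B c'))) (s : Om D → κ) :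
    NegS D 𝒰 (fun ω => -∑ a, Real.log (AV (B (s ω) a) ω)) := by
  classical
  intro ε hε
  have h1 : ∀ᶠ t in (𝒰 : Filter α), ∀ c, LinearIndependent k (fun a => rp (B c a) t) :=
    (eventually_all).2 fun c => li_rp _ (hli c)
  have h2 : ∀ᶠ t in (𝒰 : Filter α), ∀ c c', Submodule.span k (Set.range fun a => rp (B c a) t) =
      Submodule.span k (Set.range fun a => rp (B c' a) t) := by
    refine (eventually_all).2 fun c => (eventually_all).2 fun c' => ?_
    filter_upwards [span_rp (B c) (B c') (hsp c c').le, span_rp (B c') (B c) (hsp c c').ge]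
      with t g1 g2
    exact le_antisymm g1 g2
  have h3 : ∀ᶠ t in (𝒰 : Filter α), ∀ c a, ∀ P ∉ D.S t, Ge P 0 (rp (B c a) t) :=
    (eventually_all).2 fun c => (eventually_all).2 fun a => rp_int (B c a)
  have ht0 : (0 : ℝ) ≤ (tri N : ℤ) := by
    have : 0 ≤ tri N := by
      unfold tri
      exact Finset.sum_nonneg fun _ _ => Int.natCast_nonneg _
    exact_mod_cast this
  filter_upwards [h1, h2, h3, hok.eul (ε / ((tri N : ℤ) + 1)) (by positivity), hok.top 0]
    with t g1 g2 g3 g4 g5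
  have h0 : (0 : ℝ) ≤ ε * D.N t := by positivity
  rcases isEmpty_or_nonempty {P // P ∈ D.S t} with he | ⟨⟨P0⟩⟩
  · rw [Finset.univ_eq_empty, Finset.sum_empty]
    exact h0
  let s' : Place k (D.K t) → κ := fun P => if h : P ∈ D.S t then s ⟨t, ⟨P, h⟩⟩ else s ⟨t, P0⟩
  have hCh : CharZero (D.K t) :=
    charZero_of_injective_algebraMap (algebraMap k (D.K t)).injective
  have g6 := hWR k (D.K t) (D.S t) N κ (fun c a => rp (B c a) t) g3 g1 g2 s'
  have h4 : ∑ P : {P // P ∈ D.S t}, -∑ a, Real.log (AV (B (s ⟨t, P⟩) a) ⟨t, P⟩) =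
      ((∑ P ∈ D.S t, ∑ a, P.ord (rp (B (s' P) a) t) : ℤ) : ℝ) := by
    push_cast
    rw [← Finset.sum_coe_sort (D.S t)]
    refine Finset.sum_congr rfl fun P _ => ?_
    rw [← Finset.sum_neg_distrib]
    refine Finset.sum_congr rfl fun a _ => ?_
    have h5 : s' P.1 = s ⟨t, P⟩ := by
      simp only [s']
      rw [dif_pos P.2]
    rw [h5]
    have h6 : rp (B (s ⟨t, P⟩) a) t ≠ 0 := (g1 (s ⟨t, P⟩)).ne_zero a
    rw [log_AV (ω := ⟨t, P⟩) h6, neg_neg]
  rw [h4]
  have h5 : ((∑ P ∈ D.S t, ∑ a, P.ord (rp (B (s' P) a) t) : ℤ) : ℝ) ≤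
      ((tri N : ℤ) : ℝ) * ((euler (D.S t) : ℤ) : ℝ) := by exact_mod_cast g6
  refine h5.trans ?_
  calc ((tri N : ℤ) : ℝ) * ((euler (D.S t) : ℤ) : ℝ) ≤
      ((tri N : ℤ) : ℝ) * (ε / ((tri N : ℤ) + 1) * D.N t) := mul_le_mul_of_nonneg_left g4 ht0
    _ = ε * D.N t * (((tri N : ℤ) : ℝ) / ((tri N : ℤ) + 1)) := by ring
    _ ≤ ε * D.N t * 1 := by
        refine mul_le_mul_of_nonneg_left ?_ h0
        rw [div_le_one (by positivity)]
        linarith
    _ = _ := mul_one _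

theorem ord_neg_le_of_unit [IsAlgClosed k] [CharZero k] (u : (R0 D 𝒰)ˣ) :
    ∀ᶠ t in (𝒰 : Filter α), rp (u : R0 D 𝒰) t ≠ 0 ∧
      rp ((u⁻¹ : (R0 D 𝒰)ˣ) : R0 D 𝒰) t = (rp (u : R0 D 𝒰) t)⁻¹ ∧
      ∀ P ∉ D.S t, P.ord (rp (u : R0 D 𝒰) t) = 0 := by
  filter_upwards [rp_mul (u : R0 D 𝒰) ((u⁻¹ : (R0 D 𝒰)ˣ) : R0 D 𝒰), rp_one (D := D) (𝒰 := 𝒰),
    rp_int (u : R0 D 𝒰), rp_int ((u⁻¹ : (R0 D 𝒰)ˣ) : R0 D 𝒰)] with t g1 g2 g3 g4
  rw [Units.mul_inv, g2] at g1
  have h0 : rp (u : R0 D 𝒰) t ≠ 0 := by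
    intro h
    rw [h, zero_mul] at g1
    exact one_ne_zero g1
  have h1 : rp ((u⁻¹ : (R0 D 𝒰)ˣ) : R0 D 𝒰) t = (rp (u : R0 D 𝒰) t)⁻¹ :=
    eq_inv_of_mul_eq_one_right g1.symm
  refine ⟨h0, h1, fun P hP => ?_⟩
  have h2 := (g3 P hP).resolve_left h0
  have h3 := g4 P hP
  rw [h1] at h3
  have h4 := h3.resolve_left (inv_ne_zero h0)
  rw [P.ord_inv] at h4
  omega

/-- the dictionary -/
noncomputable def DcS [IsAlgClosed k] [CharZero k] (hWR : WR) (hok : Ok D 𝒰) :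
    Dc (K0 k Ω 𝒰) (R0 D 𝒰) where
  Ω := Om D
  ev := evF D 𝒰
  A := AV
  Neg := NegS D 𝒰
  one ω := D.o ω.1 ω.2.1
  A_zero := by
    rw [ev_iff]
    filter_upwards [rp_zero (D := D) (𝒰 := 𝒰)] with t ht P
    exact AV_zero (ω := ⟨t, P⟩) ht
  A_pos x hx := by
    rw [ev_iff]
    filter_upwards [rp_ne_zero x hx] with t ht P
    rw [AV_ne (ω := ⟨t, P⟩) ht]
    exact Real.exp_pos _
  A_mul x y := by
    rw [ev_iff]
    filter_upwards [rp_mul x y] with t ht P
    by_cases hx : rp x t = 0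
    · rw [AV_zero (ω := ⟨t, P⟩) hx, AV_zero (ω := ⟨t, P⟩) (by rw [ht, hx, zero_mul]), zero_mul]
    by_cases hy : rp y t = 0
    · rw [AV_zero (b := y) (ω := ⟨t, P⟩) hy, AV_zero (ω := ⟨t, P⟩) (by rw [ht, hy, mul_zero]),
        mul_zero]
    rw [AV_ne (ω := ⟨t, P⟩) hx, AV_ne (ω := ⟨t, P⟩) hy, AV_ne (ω := ⟨t, P⟩) (by
      rw [ht]; exact mul_ne_zero hx hy), ← Real.exp_add]
    congr 1
    show -((P.1.ord (rp (x * y) t) : ℤ) : ℝ) = _
    rw [ht, P.1.ord_mul hx hy]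
    push_cast
    ring
  A_add x y := by
    rw [ev_iff]
    filter_upwards [rp_add x y] with t ht P
    have e1 := AV_nonneg x (⟨t, P⟩ : Om D)
    have e2 := AV_nonneg y (⟨t, P⟩ : Om D)
    by_cases hxy : rp (x + y) t = 0
    · rw [AV_zero (ω := ⟨t, P⟩) hxy]
      linarith
    by_cases hx : rp x t = 0
    · have h1 : rp (x + y) t = rp y t := by rw [ht, hx, zero_add]
      have h2 : rp y t ≠ 0 := by rw [← h1]; exact hxy
      rw [AV_ne (ω := ⟨t, P⟩) hxy, AV_ne (b := y) (ω := ⟨t, P⟩) h2]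
      show Real.exp (-((P.1.ord (rp (x + y) t) : ℤ) : ℝ)) ≤
        _ + Real.exp (-((P.1.ord (rp y t) : ℤ) : ℝ))
      rw [h1]
      linarith
    by_cases hy : rp y t = 0
    · have h1 : rp (x + y) t = rp x t := by rw [ht, hy, add_zero]
      rw [AV_ne (ω := ⟨t, P⟩) hxy, AV_ne (b := x) (ω := ⟨t, P⟩) hx]
      show Real.exp (-((P.1.ord (rp (x + y) t) : ℤ) : ℝ)) ≤
        Real.exp (-((P.1.ord (rp x t) : ℤ) : ℝ)) + _
      rw [h1]
      linarith
    rw [AV_ne (ω := ⟨t, P⟩) hx, AV_ne (ω := ⟨t, P⟩) hy, AV_ne (ω := ⟨t, P⟩) hxy]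
    show Real.exp (-((P.1.ord (rp (x + y) t) : ℤ) : ℝ)) ≤
        Real.exp (-((P.1.ord (rp x t) : ℤ) : ℝ)) + Real.exp (-((P.1.ord (rp y t) : ℤ) : ℝ))
    have h1 := P.1.ord_add hx hy (by rw [← ht]; exact hxy)
    rw [← ht] at h1
    rcases min_choice (P.1.ord (rp x t)) (P.1.ord (rp y t)) with h2 | h2
    · rw [h2] at h1
      have h3 : Real.exp (-((P.1.ord (rp (x + y) t) : ℤ) : ℝ)) ≤
          Real.exp (-((P.1.ord (rp x t) : ℤ) : ℝ)) := by
        apply Real.exp_le_exp.2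
        have : ((P.1.ord (rp x t) : ℤ) : ℝ) ≤ (P.1.ord (rp (x + y) t) : ℤ) := by exact_mod_cast h1
        linarith
      have h4 := Real.exp_pos (-((P.1.ord (rp y t) : ℤ) : ℝ))
      linarith
    · rw [h2] at h1
      have h3 : Real.exp (-((P.1.ord (rp (x + y) t) : ℤ) : ℝ)) ≤
          Real.exp (-((P.1.ord (rp y t) : ℤ) : ℝ)) := by
        apply Real.exp_le_exp.2
        have : ((P.1.ord (rp y t) : ℤ) : ℝ) ≤ (P.1.ord (rp (x + y) t) : ℤ) := by exact_mod_cast h1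
        linarith
      have h4 := Real.exp_pos (-((P.1.ord (rp x t) : ℤ) : ℝ))
      linarith
  A_const c := by
    refine ⟨1, ?_⟩
    rw [ev_iff]
    filter_upwards [rp_const (D := D) c] with t ht P
    by_cases hc : cp c t = 0
    · rw [AV_zero (ω := ⟨t, P⟩) (by rw [ht, hc, map_zero])]
      exact zero_le_one
    · have h1 : rp (algebraMap (K0 k Ω 𝒰) (R0 D 𝒰) c) t ≠ 0 := by
        rw [ht]
        exact (map_ne_zero _).2 hc
      rw [AV_ne (ω := ⟨t, P⟩) h1]
      show Real.exp (-((P.1.ord (rp (algebraMap (K0 k Ω 𝒰) (R0 D 𝒰) c) t) : ℤ) : ℝ)) ≤ 1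
      rw [ht, P.1.ord_const hc]
      simp
  neg_mono f g hfg hf ε hε := by
    rw [ev_iff] at hfg
    filter_upwards [hf ε hε, hfg] with t h1 h2
    exact (Finset.sum_le_sum fun P _ => h2 P).trans h1
  neg_add f g hf hg ε hε := by
    filter_upwards [hf (ε / 2) (by positivity), hg (ε / 2) (by positivity)] with t h1 h2
    rw [Finset.sum_add_distrib]
    linarith
  neg_smul f c hc hf ε hε := by
    filter_upwards [hf (ε / (c + 1)) (by positivity), hok.top 0] with t h1 h2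
    rw [← Finset.mul_sum]
    calc c * ∑ P : {P // P ∈ D.S t}, f ⟨t, P⟩ ≤ c * (ε / (c + 1) * D.N t) :=
          mul_le_mul_of_nonneg_left h1 hc
      _ = ε * D.N t * (c / (c + 1)) := by ring
      _ ≤ ε * D.N t * 1 := by
          refine mul_le_mul_of_nonneg_left ?_ (by positivity)
          rw [div_le_one (by positivity)]
          linarith
      _ = _ := mul_one _
  neg_const c ε hε := by
    filter_upwards [hok.card (ε / (|c| + 1)) (by positivity), hok.top 0] with t h1 h2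
    rw [Finset.sum_const, Finset.card_univ, Fintype.card_coe, nsmul_eq_mul]
    have h3 : ((D.S t).card : ℝ) * c ≤ (D.S t).card * |c| :=
      mul_le_mul_of_nonneg_left (le_abs_self c) (Nat.cast_nonneg _)
    refine h3.trans ?_
    calc ((D.S t).card : ℝ) * |c| ≤ (ε / (|c| + 1) * D.N t) * |c| :=
          mul_le_mul_of_nonneg_right h1 (abs_nonneg c)
      _ = ε * D.N t * (|c| / (|c| + 1)) := by ring
      _ ≤ ε * D.N t * 1 := by
          refine mul_le_mul_of_nonneg_left ?_ (by positivity)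
          rw [div_le_one (by positivity)]
          linarith
      _ = _ := mul_one _
  one_nonneg := by
    rw [ev_iff]
    exact Eventually.of_forall fun t P => D.o_nonneg t P.1
  arch f hf ε hε := by
    obtain ⟨C, hC, h1⟩ := hok.osum
    filter_upwards [hf (ε / (2 * (C + 1))) (by positivity) (ε / 2) (by positivity), h1,
      hok.top 0] with t g1 g2 g3
    rw [Finset.sum_sub_distrib, ← Finset.mul_sum] at g1
    have h3 : ∑ P : {P // P ∈ D.S t}, D.o t P.1 = ∑ P ∈ D.S t, D.o t P :=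
      Finset.sum_coe_sort (D.S t) (fun P => D.o t P)
    rw [h3] at g1
    have h4 : ε / (2 * (C + 1)) * ∑ P ∈ D.S t, D.o t P ≤ ε / 2 * D.N t := by
      calc ε / (2 * (C + 1)) * ∑ P ∈ D.S t, D.o t P ≤ ε / (2 * (C + 1)) * (C * D.N t) :=
            mul_le_mul_of_nonneg_left g2 (by positivity)
        _ = ε / 2 * D.N t * (C / (C + 1)) := by
            field_simp
        _ ≤ ε / 2 * D.N t * 1 := by
            refine mul_le_mul_of_nonneg_left ?_ (by positivity)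
            rw [div_le_one (by positivity)]
            linarith
        _ = _ := mul_one _
    linarith
  bdd u := by
    obtain ⟨C, hC, h1⟩ := rp_bdd (u : R0 D 𝒰)
    obtain ⟨C', hC', h1'⟩ := rp_bdd ((u⁻¹ : (R0 D 𝒰)ˣ) : R0 D 𝒰)
    refine ⟨C + C', by positivity, fun ε hε => ?_⟩
    filter_upwards [ord_neg_le_of_unit u, h1, h1', hok.top 0] with t g1 g2 g3 g4
    obtain ⟨e1, e2, -⟩ := g1
    have h5 : ∀ P : {P // P ∈ D.S t},
        |Real.log (AV (u : R0 D 𝒰) ⟨t, P⟩)| - (C + C') * D.o t P.1 ≤ 0 := by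
      intro P
      rw [log_AV (ω := ⟨t, P⟩) e1]
      have h6 := g2 P.1 P.2
      have h7 := g3 P.1 P.2
      rw [e2, P.1.ord_inv] at h7
      push_cast at h7
      have h8 := D.o_nonneg t P.1
      have h9 : 0 ≤ C * D.o t P.1 := by positivity
      have h10 : 0 ≤ C' * D.o t P.1 := by positivity
      rw [sub_nonpos, abs_le]
      show -((C + C') * D.o t P.1) ≤ -((P.1.ord (rp (u : R0 D 𝒰) t) : ℤ) : ℝ) ∧
        -((P.1.ord (rp (u : R0 D 𝒰) t) : ℤ) : ℝ) ≤ (C + C') * D.o t P.1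
      constructor <;> linarith
    exact (Finset.sum_nonpos fun P _ => h5 P).trans (by positivity)
  unit_neg u ε hε := by
    filter_upwards [ord_neg_le_of_unit u, hok.top 0] with t g1 g2
    obtain ⟨e1, -, e3⟩ := g1
    have hCh : CharZero (D.K t) :=
      charZero_of_injective_algebraMap (algebraMap k (D.K t)).injective
    have h1 := sum_ord_finset (k := k) (rp (u : R0 D 𝒰) t) (D.S t) (fun P hP => by
      by_contra h
      exact hP (e3 P h))
    have h2 : ∑ P : {P // P ∈ D.S t}, Real.log (AV (u : R0 D 𝒰) ⟨t, P⟩) =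
        -((∑ P ∈ D.S t, P.ord (rp (u : R0 D 𝒰) t) : ℤ) : ℝ) := by
      push_cast
      rw [← Finset.sum_coe_sort (D.S t), ← Finset.sum_neg_distrib]
      exact Finset.sum_congr rfl fun P _ => log_AV (ω := ⟨t, P⟩) e1
    rw [h2, h1]
    push_cast
    rw [neg_zero]
    positivity
  smt N κ _ B hli hsp s := smtS hWR hok N κ B hli hsp s

theorem szdS [IsAlgClosed k] [CharZero k] (hWR : WR) (hok : Ok D 𝒰) :
    Pool.Agent.N754.MT.Szd (DcS hWR hok) := by
  intro x
  obtain ⟨C, hC, h1⟩ := rp_bdd x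
  refine ⟨C, hC, fun ε hε => ?_⟩
  filter_upwards [h1, hok.top 0] with t g1 g2
  have h5 : ∀ P : {P // P ∈ D.S t},
      max (Real.log (AV x ⟨t, P⟩)) 0 - C * D.o t P.1 ≤ 0 := by
    intro P
    have h8 := D.o_nonneg t P.1
    rw [sub_nonpos]
    refine max_le ?_ (by positivity)
    by_cases hx : rp x t = 0
    · rw [AV_zero (ω := ⟨t, P⟩) hx, Real.log_zero]
      positivity
    · rw [log_AV (ω := ⟨t, P⟩) hx]
      exact g1 P.1 P.2
  exact (Finset.sum_nonpos fun P _ => h5 P).trans (by positivity)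

end Pool.Agent.N754.FV
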