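import Mathlib
import Pool.Agent.N754.FV.Dct

/-!
The alternative for sequences of points over function fields: a second point in the fibre, or a
Laurent curve.
-/

set_option autoImplicit false
set_option linter.unusedSectionVars false
set_option linter.overlappingInstances false

open MvPolynomial FF Pool.Agent.W603.LV Filter

namespace Pool.Agent.N754.FV

open Pool.Agent.H159R3.Exp (Laur)
open Pool.Agent.N754.LT (Dc)
open Pool.Agent.N754.MT (SS mem_SS Szd)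

/-- the size of a vector of functions at the places in `S` -/
noncomputable def sz {k K : Type} [Field k] [Field K] [Algebra k K] (S : Finset (Place k K))
    {n : ℕ} (x : Fin n → K) : ℝ := ∑ P ∈ S, ∑ i, max (-(P.ord (x i) : ℝ)) 0

/-- constants -/
noncomputable def cst (k Ω : Type) {α : Type} [Field k] [Field Ω] [Algebra k Ω]
    (𝒰 : Ultrafilter α) : k →+* K0 k Ω 𝒰 :=
  ((gc 𝒰).comp ((Pi.constRingHom α Ω).comp (algebraMap k Ω))).codRestrict (kS k Ω 𝒰)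
    (fun c => ⟨fun _ => c, rfl⟩)

theorem kV_cst {k Ω α : Type} [Field k] [Field Ω] [Algebra k Ω] (𝒰 : Ultrafilter α) :
    (kV (k := k) (Ω := Ω) 𝒰).comp (cst k Ω 𝒰) =
      (gc 𝒰).comp ((Pi.constRingHom α Ω).comp (algebraMap k Ω)) := rfl

/-- **The alternative.** -/
theorem seq {k Ω : Type} [Field k] [IsAlgClosed k] [CharZero k] [Field Ω] [Algebra k Ω]
    [IsAlgClosed Ω] (hWR : WR) {α : Type} (𝒰 : Ultrafilter α) (K : α → Type) [∀ t, Field (K t)]
    [∀ t, Algebra k (K t)] [∀ t, IsFF k (K t)] (σ : ∀ t, K t →ₐ[k] Ω)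
    (S : ∀ t, Finset (Place k (K t))) {n : ℕ} (x : ∀ t, Fin n → K t) (U A : Finset (Fin n))
    {ι : Type} (F : ι → MvPolynomial (Fin n) k)
    (hint : ∀ᶠ t in (𝒰 : Filter α), ∀ i, ∀ P ∉ S t, 0 ≤ P.ord (x t i))
    (hF : ∀ l, ∀ᶠ t in (𝒰 : Filter α), aeval (x t) (F l) = 0)
    (hU : ∀ i ∈ U, ∃ B : MvPolynomial (Fin n) k,
      ∀ᶠ t in (𝒰 : Filter α), aeval (x t) B * x t i = 1)
    (hN : ∀ C : ℝ, ∀ᶠ t in (𝒰 : Filter α), C ≤ sz (S t) (x t))
    (hc : ∀ ε : ℝ, 0 < ε → ∀ᶠ t in (𝒰 : Filter α), ((S t).card : ℝ) ≤ ε * sz (S t) (x t))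
    (he : ∀ ε : ℝ, 0 < ε → ∀ᶠ t in (𝒰 : Filter α),
      ((euler (S t) : ℤ) : ℝ) ≤ ε * sz (S t) (x t))
    (hA : ∀ i ∈ A, ∀ ε : ℝ, 0 < ε → ∀ᶠ t in (𝒰 : Filter α),
      ∑ P ∈ S t, max (-(P.ord (x t i) : ℝ)) 0 ≤ ε * sz (S t) (x t)) :
    (∃ z : Fin n → GC Ω α 𝒰,
      (∀ l, eval₂ ((gc 𝒰).comp ((Pi.constRingHom α Ω).comp (algebraMap k Ω))) z (F l) = 0) ∧
      (∀ i ∈ U ∪ A, z i = gc 𝒰 fun t => σ t (x t i)) ∧
      z ≠ fun i => gc 𝒰 fun t => σ t (x t i)) ∨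
    ∃ v : GC Ω α 𝒰 → Fin n → GC Ω α 𝒰, (∀ j, Laur fun t => v t j) ∧
      (∀ l s, s ≠ 0 →
        eval₂ ((gc 𝒰).comp ((Pi.constRingHom α Ω).comp (algebraMap k Ω))) (v s) (F l) = 0) ∧
      (∀ i ∈ A, ∀ s, s ≠ 0 → v s i = gc 𝒰 fun t => σ t (x t i)) ∧
      (v 1 = fun i => gc 𝒰 fun t => σ t (x t i)) ∧ ∃ j, v 2 j ≠ v 1 j := by
  classical
  let D : Sy k Ω α :=
    { K := K
      σ := σ
      S := S
      o := fun t P => ∑ i, max (-(P.ord (x t i) : ℝ)) 0
      N := fun t => sz (S t) (x t)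
      o_nonneg := fun t P => Finset.sum_nonneg fun i _ => le_max_right _ _ }
  have hok : Ok D 𝒰 :=
    { osum := ⟨1, zero_le_one, Eventually.of_forall fun t => by
        rw [one_mul]
        exact le_refl _⟩
      top := hN
      card := hc
      eul := he }
  have hI : ∀ i, Int' D 𝒰 fun t => x t i := by
    intro i
    filter_upwards [hint] with t ht P hP
    exact Or.inr (ht i P hP)
  have hB : ∀ i, Bdd D 𝒰 fun t => x t i := by
    intro i
    refine ⟨1, zero_le_one, Eventually.of_forall fun t P _ => ?_⟩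
    rw [one_mul]
    have h1 : max (-(P.ord (x t i) : ℝ)) 0 ≤ ∑ i, max (-(P.ord (x t i) : ℝ)) 0 :=
      Finset.single_le_sum (f := fun i => max (-(P.ord (x t i) : ℝ)) 0)
        (fun _ _ => le_max_right _ _) (Finset.mem_univ i)
    exact (le_max_left _ _).trans h1
  let yR : Fin n → R0 D 𝒰 := fun i => mkr (fun t => x t i) (hI i) (hB i)
  have hyR : ∀ i, rV D 𝒰 (yR i) = gc 𝒰 fun t => σ t (x t i) := fun i => rfl
  have hrp : ∀ i, ∀ᶠ t in (𝒰 : Filter α), rp (yR i) t = x t i := fun i => rp_mkr _ _ _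
  let FK : MvPolynomial (Fin n) k → MvPolynomial (Fin n) (K0 k Ω 𝒰) := fun Q =>
    MvPolynomial.map (cst k Ω 𝒰) Q
  have hkr : (rV D 𝒰).comp (algebraMap (K0 k Ω 𝒰) (R0 D 𝒰)) = kV 𝒰 := RingHom.ext fun c => rfl
  have hev : ∀ (z : Fin n → GC Ω α 𝒰) (Q : MvPolynomial (Fin n) k),
      eval₂ ((rV D 𝒰).comp (algebraMap (K0 k Ω 𝒰) (R0 D 𝒰))) z (FK Q) =
      eval₂ ((gc 𝒰).comp ((Pi.constRingHom α Ω).comp (algebraMap k Ω))) z Q := by
    intro z Q
    simp only [FK]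
    rw [eval₂_map, hkr, kV_cst]
  have hval : ∀ Q : MvPolynomial (Fin n) k, rV D 𝒰 (aeval yR (FK Q)) =
      gc 𝒰 fun t => σ t (aeval (x t) Q) := by
    intro Q
    have h1 : rV D 𝒰 (aeval yR (FK Q)) =
        eval₂ ((rV D 𝒰).comp (algebraMap (K0 k Ω 𝒰) (R0 D 𝒰))) (fun i => rV D 𝒰 (yR i)) (FK Q) := by
      rw [aeval_def]
      exact hom_eval₂ _ _ _ _
    rw [h1, hev]
    have h2 : (fun i => rV D 𝒰 (yR i)) = fun i => gc 𝒰 fun t => σ t (x t i) := funext hyR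
    rw [h2, gc_eval 𝒰 (algebraMap k Ω) (fun t i => σ t (x t i))]
    congr 1
    funext t
    have h3 : σ t (aeval (x t) Q) = aeval (fun i => σ t (x t i)) Q := by
      have h4 : (σ t).comp (aeval (x t)) = aeval (R := k) fun i => σ t (x t i) := by
        apply MvPolynomial.algHom_ext
        intro i
        rw [AlgHom.comp_apply, aeval_X, aeval_X]
      rw [← h4]
      rfl
    rw [h3, aeval_def]
  have hFR : ∀ l, aeval yR (FK (F l)) = 0 := by
    intro l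
    apply rV_inj D 𝒰
    rw [hval, map_zero, gc_zero]
    filter_upwards [hF l] with t ht
    rw [ht, map_zero]
  have hyU : ∀ i ∈ U, IsUnit (yR i) := by
    intro i hi
    obtain ⟨B, hB'⟩ := hU i hi
    refine IsUnit.of_mul_eq_one_right (aeval yR (FK B)) ?_
    apply rV_inj D 𝒰
    rw [map_mul, map_one, hval, hyR, ← map_mul, ← map_one (gc 𝒰), gc_eq]
    filter_upwards [hB'] with t ht
    show σ t (aeval (x t) B) * σ t (x t i) = 1
    rw [← map_mul, ht, map_one]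
  let D0 := DcS hWR hok
  have hlg : ∀ i, ∀ᶠ t in (𝒰 : Filter α), ∀ P : {P // P ∈ S t},
      max (D0.lg (yR i) (⟨t, P⟩ : Om D)) 0 = max (-((P.1.ord (x t i) : ℤ) : ℝ)) 0 := by
    intro i
    filter_upwards [hrp i] with t ht P
    show max (Real.log (AV (yR i) (⟨t, P⟩ : Om D))) 0 = _
    by_cases h0 : rp (yR i) t = 0
    · rw [AV_zero (ω := (⟨t, P⟩ : Om D)) h0, Real.log_zero]
      rw [ht] at h0
      rw [h0, P.1.ord_zero]
      simp
    · rw [log_AV (ω := (⟨t, P⟩ : Om D)) h0]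
      show max (-((P.1.ord (rp (yR i) t) : ℤ) : ℝ)) 0 = _
      rw [ht]
  have hyA : ∀ i ∈ A, yR i ∈ SS D0 := by
    intro i hi
    rw [mem_SS]
    intro ε hε
    filter_upwards [hA i hi ε hε, hlg i] with t g1 g2
    have h1 : ∑ P : {P // P ∈ S t}, max (D0.lg (yR i) (⟨t, P⟩ : Om D)) 0 =
        ∑ P ∈ S t, max (-(P.ord (x t i) : ℝ)) 0 := by
      rw [Finset.sum_congr rfl fun P _ => g2 P]
      exact Finset.sum_coe_sort (S t) (fun P => max (-(P.ord (x t i) : ℝ)) 0)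
    exact h1.trans_le g1
  have hnn : ¬ D0.Neg D0.one := by
    intro h
    have h1 := h (1 / 2) (by norm_num)
    obtain ⟨t, g1, g2⟩ := (h1.and (hN 1)).exists
    have h2 : ∑ P : {P // P ∈ S t}, D0.one (⟨t, P⟩ : Om D) = sz (S t) (x t) :=
      Finset.sum_coe_sort (S t) (fun P => ∑ i, max (-(P.ord (x t i) : ℝ)) 0)
    have g3 : sz (S t) (x t) ≤ 1 / 2 * sz (S t) (x t) := h2.symm.trans_le g1
    linarith
  have hchO : CharZero Ω := charZero_of_injective_algebraMap (algebraMap k Ω).injective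
  have hchar : CharZero (GC Ω α 𝒰) := by
    refine charZero_of_injective_ringHom (f := (gc 𝒰).comp (Pi.constRingHom α Ω)) ?_
    exact RingHom.injective _
  have hmain := Pool.Agent.N754.MT.main D0 (rV D 𝒰) (rV_inj D 𝒰) (szdS hWR hok) U A
    (fun l => FK (F l)) yR hFR hyU hyA ⟨1, zero_le_one, by
      intro ε hε
      have h1 : ∀ᶠ t in (𝒰 : Filter α), ∀ i, ∀ P : {P // P ∈ S t},
        max (D0.lg (yR i) (⟨t, P⟩ : Om D)) 0 = max (-((P.1.ord (x t i) : ℤ) : ℝ)) 0 :=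
        (eventually_all).2 hlg
      filter_upwards [h1, hN 0] with t g1 g2
      have h2 : ∀ P : {P // P ∈ S t}, D0.one (⟨t, P⟩ : Om D) -
          1 * ∑ i, max (D0.lg (yR i) (⟨t, P⟩ : Om D)) 0 = 0 := by
        intro P
        rw [Finset.sum_congr rfl fun i _ => g1 i P, one_mul]
        exact sub_self _
      have h3 : ∑ P : {P // P ∈ S t}, (D0.one (⟨t, P⟩ : Om D) -
          1 * ∑ i, max (D0.lg (yR i) (⟨t, P⟩ : Om D)) 0) = 0 :=
        Finset.sum_eq_zero fun P _ => h2 P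
      refine h3.le.trans ?_
      show 0 ≤ ε * sz (S t) (x t)
      positivity⟩ hnn
  rcases hmain with ⟨z, h1, h2, h3⟩ | ⟨v, h1, h2, h3, h4, h5⟩
  · left
    refine ⟨z, fun l => ?_, fun i hi => ?_, ?_⟩
    · rw [← hev]
      exact h1 l
    · rw [← hyR]
      exact h2 i hi
    · exact h3
  · right
    refine ⟨v, h1, fun l s hs => ?_, fun i hi s hs => ?_, ?_, h5⟩
    · rw [← hev]
      exact h2 l s hs
    · rw [← hyR]
      exact h3 i hi s hs
    · exact h4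

end Pool.Agent.N754.FV
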