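import Mathlib
import Pool.Agent.N754.FV.Seq

/-!
Points on varieties over a function field, in finite extensions.
-/

set_option autoImplicit false
set_option linter.unusedSectionVars false
set_option linter.overlappingInstances false

open MvPolynomial FF Pool.Agent.W603.LV Filter

namespace Pool.Agent.N754.FV

open Pool.Agent.H159R3.Exp (Laur)

/-- a certificate for the invertibility of a coordinate -/
theorem unit_certF {F Ω : Type} [Field F] [Field Ω] [Algebra F Ω] [IsAlgClosed Ω] {ι : Type}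
    {n : ℕ} (E : ι → MvPolynomial (Fin n) F) (i : Fin n)
    (h : ∀ z : Fin n → Ω, (∀ l, aeval z (E l) = 0) → z i ≠ 0) :
    ∃ B : MvPolynomial (Fin n) F, B * X i - 1 ∈ Ideal.span (Set.range E) := by
  classical
  by_contra hcon
  push Not at hcon
  let I : Ideal (MvPolynomial (Fin n) F) := Ideal.span (Set.range E) ⊔ Ideal.span {X i}
  have hI : I ≠ ⊤ := by
    intro hI
    have h1 : (1 : MvPolynomial (Fin n) F) ∈ I := by rw [hI]; trivial
    obtain ⟨y, hy, z, hz, hyz⟩ := Submodule.mem_sup.1 h1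
    obtain ⟨B, hB⟩ := Ideal.mem_span_singleton'.1 hz
    apply hcon B
    have h2 : B * X i - 1 = -y := by
      rw [hB, ← hyz]
      ring
    rw [h2]
    exact neg_mem hy
  obtain ⟨m, hm, hIm⟩ := Ideal.exists_le_maximal I hI
  let κ : Type := MvPolynomial (Fin n) F ⧸ m
  let : Field κ := Ideal.Quotient.field m
  have hfin : Module.Finite F κ := finite_of_finite_type_of_isJacobsonRing F κ
  let τ : κ →ₐ[F] Ω := IsAlgClosed.lift
  let z : Fin n → Ω := fun j => τ (Ideal.Quotient.mk m (X j))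
  have hz : ∀ P : MvPolynomial (Fin n) F, aeval z P = τ (Ideal.Quotient.mk m P) := by
    intro P
    have h1 : (aeval z : MvPolynomial (Fin n) F →ₐ[F] Ω) =
        τ.comp (Ideal.Quotient.mkₐ F m) := by
      apply MvPolynomial.algHom_ext
      intro j
      rw [aeval_X]
      rfl
    rw [h1]
    rfl
  refine h z (fun l => ?_) ?_
  · rw [hz, Ideal.Quotient.eq_zero_iff_mem.2 (hIm ?_), map_zero]
    exact Ideal.mem_sup_left (Ideal.subset_span ⟨l, rfl⟩)
  · show τ (Ideal.Quotient.mk m (X i)) = 0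
    rw [Ideal.Quotient.eq_zero_iff_mem.2 (hIm ?_), map_zero]
    exact Ideal.mem_sup_right (Ideal.mem_span_singleton_self _)

/-- encoding the coefficients by variables -/
theorem encode (k : Type) [Field k] {F : Type} [Field F] {n m : ℕ} (a : Fin m → F)
    (Q : MvPolynomial (Fin n) F) (hQ : ∀ s ∈ Q.support, Q.coeff s ∈ Set.range a) :
    ∃ Q' : MvPolynomial (Fin (n + m)) k, ∀ (R : Type) [CommRing R] (ψ : k →+* R) (φ : F →+* R)
      (x : Fin n → R), eval₂ ψ (Fin.append x fun j => φ (a j)) Q' = eval₂ φ x Q := by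
  classical
  choose j hj using hQ
  refine ⟨∑ s ∈ Q.support.attach, X (Fin.natAdd n (j s.1 s.2)) *
    ∏ i, X (Fin.castAdd m i) ^ (s.1 i), fun R _ ψ φ x => ?_⟩
  rw [eval₂_sum, eval₂_eq' , ← Finset.sum_attach Q.support]
  refine Finset.sum_congr rfl fun s _ => ?_
  rw [eval₂_mul, eval₂_X, eval₂_prod, Fin.append_right, hj]
  congr 1
  refine Finset.prod_congr rfl fun i _ => ?_
  rw [eval₂_pow, eval₂_X, Fin.append_left]

section hts

variable {k K : Type} [Field k] [Field K] [Algebra k K] [CharZero k] [IsAlgClosed k] [IsFF k K]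

/-- the part of the height at a finite set of places -/
theorem part_le_hgt (S : Finset (Place k K)) (g : K) :
    ∑ P ∈ S, max (-(P.ord g : ℝ)) 0 ≤ ((hgt k g : ℤ) : ℝ) := by
  classical
  obtain ⟨T, hT⟩ := exists_supp (k := k) (Finset.univ : Finset (Fin 1)) ![g]
  have h1 : ∀ P : Place k K, P.ord g ≠ 0 → P ∈ T ∪ S := fun P hP =>
    Finset.mem_union_left _ (hT 0 (Finset.mem_univ _) P hP)
  rw [hgt_finset g _ h1]
  push_cast
  exact Finset.sum_le_sum_of_subset_of_nonneg Finset.subset_union_right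
    fun P _ _ => le_max_right _ _

/-- the places where a function has a pole -/
theorem exists_poles (g : K) : ∃ T : Finset (Place k K), (∀ P ∉ T, 0 ≤ P.ord g) ∧
    ((T.card : ℤ) : ℝ) ≤ ((hgt k g : ℤ) : ℝ) := by
  classical
  obtain ⟨T0, hT0⟩ := exists_supp (k := k) (Finset.univ : Finset (Fin 1)) ![g]
  have h1 : ∀ P : Place k K, P.ord g ≠ 0 → P ∈ T0 := fun P hP => hT0 0 (Finset.mem_univ _) P hP
  refine ⟨T0.filter fun P => P.ord g < 0, fun P hP => ?_, ?_⟩
  · by_contra h
    push Not at h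
    exact hP (Finset.mem_filter.2 ⟨h1 P h.ne, h⟩)
  · rw [hgt_finset g T0 h1]
    have h2 : ((T0.filter fun P => P.ord g < 0).card : ℤ) ≤ ∑ P ∈ T0, max (-P.ord g) 0 := by
      rw [Finset.card_filter]
      push_cast
      refine Finset.sum_le_sum fun P _ => ?_
      split_ifs with h
      · exact le_max_of_le_left (by omega)
      · exact le_max_right _ _
    exact_mod_cast h2

/-- the degree of a map and the sizes at the poles -/
theorem mapDeg_le_sz {n : ℕ} (S : Finset (Place k K)) (x : Fin n → K)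
    (h : ∀ i, ∀ P ∉ S, 0 ≤ P.ord (x i)) : ((mapDeg k x : ℤ) : ℝ) ≤ sz S x := by
  classical
  unfold mapDeg sz
  rw [finsum_eq_sum_of_support_subset (s := S)]
  · push_cast
    refine Finset.sum_le_sum fun P _ => ?_
    have h1 : (((Finset.univ.sup fun j => (-P.ord (x j)).toNat : ℕ) : ℤ) : ℝ) ≤
        ∑ i, max (-(P.ord (x i) : ℝ)) 0 := by
      rcases (Finset.univ : Finset (Fin n)).eq_empty_or_nonempty with he | he
      · rw [he]
        simp
      · obtain ⟨j, -, hj⟩ := Finset.exists_mem_eq_sup Finset.univ he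
          fun j => (-P.ord (x j)).toNat
        rw [hj]
        refine le_trans ?_ (Finset.single_le_sum (f := fun i => max (-(P.ord (x i) : ℝ)) 0)
          (fun _ _ => le_max_right _ _) (Finset.mem_univ j))
        have h2 : (((-P.ord (x j)).toNat : ℤ)) = max (-P.ord (x j)) 0 := Int.ofNat_toNat _
        rw [show ((((-P.ord (x j)).toNat : ℕ) : ℤ) : ℝ) = ((max (-P.ord (x j)) 0 : ℤ) : ℝ) by
          rw [← h2]]
        push_cast
        exact le_refl _
    exact_mod_cast h1
  · intro P hP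
    by_contra hPS
    apply hP
    have h1 : (Finset.univ.sup fun j => (-P.ord (x j)).toNat) = 0 := by
      rw [← Nat.bot_eq_zero, Finset.sup_eq_bot_iff]
      intro j _
      have := h j P hPS
      rw [Nat.bot_eq_zero]
      omega
    show ((Finset.univ.sup fun j => (-P.ord (x j)).toNat : ℕ) : ℤ) = 0
    rw [h1]
    rfl

end hts

/-- **The alternative**, over finite extensions of a function field. -/
theorem nonc {k F Ω : Type} [Field k] [IsAlgClosed k] [CharZero k] [Field F] [Algebra k F]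
    [IsFF k F] [Field Ω] [Algebra F Ω] [IsAlgClosed Ω] (hWR : WR) (hEMB : EMB) {α : Type}
    (𝒰 : Ultrafilter α)
    (L : α → Type) [∀ t, Field (L t)] [∀ t, Algebra k (L t)] [∀ t, Algebra F (L t)]
    [∀ t, IsScalarTower k F (L t)] [∀ t, FiniteDimensional F (L t)] (σ : ∀ t, L t →ₐ[F] Ω)
    (S : ∀ t, Finset (Place k (L t))) {n : ℕ} (x : ∀ t, Fin n → L t) (U : Finset (Fin n))
    {ι : Type} [Finite ι] (E : ι → MvPolynomial (Fin n) F)
    (hU : ∀ z : Fin n → Ω, (∀ l, aeval z (E l) = 0) → ∀ i ∈ U, z i ≠ 0)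
    (hint : ∀ t, ∀ i, ∀ P ∉ S t, 0 ≤ P.ord (x t i))
    (hE : ∀ t l, aeval (x t) (E l) = 0)
    (hbig : ∀ C : ℝ, ∀ᶠ t in (𝒰 : Filter α), C * ((canDeg k (L t) + (S t).card +
      3 * Module.finrank F (L t) : ℤ) : ℝ) ≤ ((mapDeg k (x t) : ℤ) : ℝ)) :
    (∃ z : Fin n → GC Ω α 𝒰,
      (∀ l, eval₂ ((gc 𝒰).comp ((Pi.constRingHom α Ω).comp (algebraMap F Ω))) z (E l) = 0) ∧
      (∀ i ∈ U, z i = gc 𝒰 fun t => σ t (x t i)) ∧
      z ≠ fun i => gc 𝒰 fun t => σ t (x t i)) ∨
    ∃ v : GC Ω α 𝒰 → Fin n → GC Ω α 𝒰, (∀ j, Laur fun t => v t j) ∧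
      (∀ l s, s ≠ 0 →
        eval₂ ((gc 𝒰).comp ((Pi.constRingHom α Ω).comp (algebraMap F Ω))) (v s) (E l) = 0) ∧
      (v 1 = fun i => gc 𝒰 fun t => σ t (x t i)) ∧ ∃ j, v 2 j ≠ v 1 j := by
  classical
  let : Algebra k Ω := ((algebraMap F Ω).comp (algebraMap k F)).toAlgebra
  have hst : IsScalarTower k F Ω := IsScalarTower.of_algebraMap_eq' rfl
  have hFL : ∀ t, IsFF k (L t) := fun t =>
    Pool.Agent.W603.PV.isFF_of_finite (k := k) (F := F) (L := L t)
  have hCL : ∀ t, CharZero (L t) := fun t =>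
    charZero_of_injective_algebraMap (algebraMap k (L t)).injective
  -- certificates
  have hcert : ∀ i ∈ U, ∃ B : MvPolynomial (Fin n) F, B * X i - 1 ∈ Ideal.span (Set.range E) :=
    fun i hi => unit_certF (Ω := Ω) E i fun z hz => hU z hz i hi
  choose! B hB using hcert
  have := Fintype.ofFinite ι
  -- the coefficients
  let T : Finset F := (Finset.univ.biUnion fun l => (E l).support.image fun s => (E l).coeff s) ∪
    (Finset.univ.biUnion fun i => (B i).support.image fun s => (B i).coeff s)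
  obtain ⟨m, hm⟩ : ∃ m, m = T.card := ⟨_, rfl⟩
  let e : T ≃ Fin m := T.equivFinOfCardEq hm.symm
  let a : Fin m → F := fun j => (e.symm j : F)
  have ha : ∀ c ∈ T, c ∈ Set.range a := by
    intro c hc
    refine ⟨e ⟨c, hc⟩, ?_⟩
    show ((e.symm (e ⟨c, hc⟩)) : F) = c
    rw [Equiv.symm_apply_apply]
  have haE : ∀ l, ∀ s ∈ (E l).support, (E l).coeff s ∈ Set.range a := fun l s hs =>
    ha _ (Finset.mem_union_left _ (Finset.mem_biUnion.2 ⟨l, Finset.mem_univ _,
      Finset.mem_image.2 ⟨s, hs, rfl⟩⟩))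
  have haB : ∀ i, ∀ s ∈ (B i).support, (B i).coeff s ∈ Set.range a := fun i s hs =>
    ha _ (Finset.mem_union_right _ (Finset.mem_biUnion.2 ⟨i, Finset.mem_univ _,
      Finset.mem_image.2 ⟨s, hs, rfl⟩⟩))
  choose E' hE' using fun l => encode k a (E l) (haE l)
  choose B' hB' using fun i => encode k a (B i) (haB i)
  -- the points
  let y : ∀ t, Fin (n + m) → L t := fun t => Fin.append (x t) fun j => algebraMap F (L t) (a j)
  have hpol : ∀ t, ∃ Tp : Fin m → Finset (Place k (L t)), ∀ j,
      (∀ P ∉ Tp j, 0 ≤ P.ord (algebraMap F (L t) (a j))) ∧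
      (((Tp j).card : ℤ) : ℝ) ≤ ((hgt k (algebraMap F (L t) (a j)) : ℤ) : ℝ) := by
    intro t
    choose Tp hTp using fun j => exists_poles (k := k) (algebraMap F (L t) (a j))
    exact ⟨Tp, hTp⟩
  choose Tp hTp using hpol
  let S' : ∀ t, Finset (Place k (L t)) := fun t => S t ∪ Finset.univ.biUnion fun j => Tp t j
  let H : ℝ := ∑ j, ((hgt k (a j) : ℤ) : ℝ)
  have hH0 : 0 ≤ H := Finset.sum_nonneg fun j _ => by exact_mod_cast hgt_nonneg (k := k) (a j)
  have hhj : ∀ j, ((hgt k (a j) : ℤ) : ℝ) ≤ H := fun j =>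
    Finset.single_le_sum (f := fun j => ((hgt k (a j) : ℤ) : ℝ))
      (fun j _ => by exact_mod_cast hgt_nonneg (k := k) (a j)) (Finset.mem_univ j)
  let W : α → ℝ := fun t => ((canDeg k (L t) + (S t).card + 3 * Module.finrank F (L t) : ℤ) : ℝ)
  let N : α → ℝ := fun t => (Module.finrank F (L t) : ℝ)
  have hN1 : ∀ t, 1 ≤ N t := fun t => by
    have h1 : 0 < Module.finrank F (L t) := Module.finrank_pos
    simp only [N]
    exact_mod_cast h1
  have hcan : ∀ t, (-2 : ℝ) ≤ ((canDeg k (L t) : ℤ) : ℝ) := fun t => by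
    exact_mod_cast (hEMB k (L t)).1
  have hWt : ∀ t, W t = ((canDeg k (L t) : ℤ) : ℝ) + (S t).card + 3 * N t := fun t => by
    simp only [W, N]
    push_cast
    ring
  have hWN : ∀ t, N t ≤ W t := fun t => by
    rw [hWt]
    have h1 := hcan t
    have h2 : (0 : ℝ) ≤ (S t).card := Nat.cast_nonneg _
    have h3 := hN1 t
    linarith
  have hWS : ∀ t, ((S t).card : ℝ) ≤ W t := fun t => by
    rw [hWt]
    have h1 := hcan t
    have h3 := hN1 t
    linarith
  have hhL : ∀ t j, ((hgt k (algebraMap F (L t) (a j)) : ℤ) : ℝ) =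
      N t * ((hgt k (a j) : ℤ) : ℝ) := fun t j => by
    rw [Pool.Agent.W603.PV.hgt_algebraMap (k := k) (F := F) (L := L t)]
    push_cast
    rfl
  have hcard : ∀ t, ((S' t).card : ℝ) ≤ (S t).card + N t * H := by
    intro t
    have h1 : (S' t).card ≤ (S t).card + ∑ j, (Tp t j).card :=
      (Finset.card_union_le _ _).trans (Nat.add_le_add_left Finset.card_biUnion_le _)
    have h2 : ((S' t).card : ℝ) ≤ (S t).card + ∑ j, ((Tp t j).card : ℝ) := by exact_mod_cast h1
    refine h2.trans ?_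
    have h3 : ∑ j, ((Tp t j).card : ℝ) ≤ ∑ j, N t * ((hgt k (a j) : ℤ) : ℝ) := by
      refine Finset.sum_le_sum fun j _ => ?_
      rw [← hhL]
      exact_mod_cast (hTp t j).2
    rw [← Finset.mul_sum] at h3
    exact add_le_add_right h3 _
  have hSS' : ∀ t, S t ⊆ S' t := fun t => Finset.subset_union_left
  have hint' : ∀ t, ∀ i, ∀ P ∉ S' t, 0 ≤ P.ord (y t i) := by
    intro t i P hP
    refine Fin.addCases (fun i => ?_) (fun j => ?_) i
    · simp only [y]
      rw [Fin.append_left]
      exact hint t i P fun h => hP (hSS' t h)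
    · simp only [y]
      rw [Fin.append_right]
      exact (hTp t j).1 P fun h => hP (Finset.mem_union_right _ (Finset.mem_biUnion.2
        ⟨j, Finset.mem_univ _, h⟩))
  have hszy : ∀ t, ((mapDeg k (x t) : ℤ) : ℝ) ≤ sz (S' t) (y t) := by
    intro t
    refine (mapDeg_le_sz (S' t) (x t) fun i P hP => hint t i P fun h => hP (hSS' t h)).trans ?_
    unfold sz
    refine Finset.sum_le_sum fun P _ => ?_
    rw [Fin.sum_univ_add]
    have h1 : ∀ i, max (-(P.ord (y t (Fin.castAdd m i)) : ℝ)) 0 =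
        max (-(P.ord (x t i) : ℝ)) 0 := fun i => by
      simp only [y]
      rw [Fin.append_left]
    rw [Finset.sum_congr rfl fun i _ => h1 i]
    have h2 : 0 ≤ ∑ j, max (-(P.ord (y t (Fin.natAdd n j)) : ℝ)) 0 :=
      Finset.sum_nonneg fun _ _ => le_max_right _ _
    linarith
  have hbig' : ∀ C : ℝ, ∀ᶠ t in (𝒰 : Filter α), C * W t ≤ sz (S' t) (y t) := by
    intro C
    filter_upwards [hbig C] with t ht
    exact ht.trans (hszy t)
  have hW1 : ∀ t, 1 ≤ W t := fun t => (hN1 t).trans (hWN t)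
  -- bounds
  have hsmall : ∀ (f : α → ℝ) (c : ℝ), (∀ t, f t ≤ c * W t) → 0 ≤ c → ∀ ε : ℝ, 0 < ε →
      ∀ᶠ t in (𝒰 : Filter α), f t ≤ ε * sz (S' t) (y t) := by
    intro f c hf hc ε hε
    filter_upwards [hbig' (c / ε)] with t ht
    refine (hf t).trans ?_
    have h1 := mul_le_mul_of_nonneg_left ht hε.le
    calc c * W t = ε * (c / ε * W t) := by field_simp
      _ ≤ _ := h1
  have hseq := seq hWR 𝒰 L (fun t => (σ t).restrictScalars k) S' y
    (U.image (Fin.castAdd m)) (Finset.univ.image (Fin.natAdd n)) E'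
    (Eventually.of_forall hint')
    (fun l => Eventually.of_forall fun t => by
      have h1 := hE' l (L t) (algebraMap k (L t)) (algebraMap F (L t)) (x t)
      have h2 : eval₂ (algebraMap F (L t)) (x t) (E l) = 0 := hE t l
      rw [h2] at h1
      exact h1)
    (fun i' hi' => by
      obtain ⟨i, hi, rfl⟩ := Finset.mem_image.1 hi'
      refine ⟨B' i, Eventually.of_forall fun t => ?_⟩
      have h1 := hB' i (L t) (algebraMap k (L t)) (algebraMap F (L t)) (x t)
      have h2 : aeval (y t) (B' i) = aeval (x t) (B i) := h1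
      have h3 : y t (Fin.castAdd m i) = x t i := Fin.append_left _ _ _
      rw [h2, h3]
      have h4 : aeval (x t) (B i * X i - 1) = 0 := by
        have h5 : Ideal.span (Set.range E) ≤ RingHom.ker (aeval (R := F) (x t)) := by
          rw [Ideal.span_le]
          rintro _ ⟨l, rfl⟩
          exact hE t l
        exact h5 (hB i hi)
      rw [map_sub, map_mul, aeval_X, map_one, sub_eq_zero] at h4
      exact h4)
    (fun C => by
      filter_upwards [hbig' (max C 0)] with t ht
      refine le_trans ?_ ht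
      calc C ≤ max C 0 := le_max_left _ _
        _ = max C 0 * 1 := (mul_one _).symm
        _ ≤ _ := mul_le_mul_of_nonneg_left (hW1 t) (le_max_right _ _))
    (hsmall (fun t => ((S' t).card : ℝ)) (1 + H) (fun t => by
      have h1 := hcard t
      have h2 := hWS t
      have h3 := mul_le_mul_of_nonneg_right (hWN t) hH0
      linarith) (by positivity))
    (hsmall (fun t => ((euler (S' t) : ℤ) : ℝ)) (1 + H) (fun t => by
      have h1 := hcard t
      have h3 := mul_le_mul_of_nonneg_right (hWN t) hH0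
      have h4 := hN1 t
      unfold euler
      push_cast
      rw [hWt] at h3 ⊢
      linarith) (by positivity))
    (fun i' hi' => by
      obtain ⟨j, -, rfl⟩ := Finset.mem_image.1 hi'
      refine hsmall _ H (fun t => ?_) hH0
      have h1 : y t (Fin.natAdd n j) = algebraMap F (L t) (a j) := Fin.append_right _ _ _
      rw [h1]
      refine (part_le_hgt (S' t) _).trans ?_
      rw [hhL]
      have h2 := hhj j
      have h3 := hWN t
      have h4 := hN1 t
      have h5 : (0 : ℝ) ≤ ((hgt k (a j) : ℤ) : ℝ) := by exact_mod_cast hgt_nonneg (k := k) (a j)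
      calc N t * ((hgt k (a j) : ℤ) : ℝ) ≤ W t * H :=
            mul_le_mul h3 h2 h5 (by linarith)
        _ = _ := mul_comm _ _)
  -- the ring homomorphism
  let Φ : F →+* GC Ω α 𝒰 := (gc 𝒰).comp ((Pi.constRingHom α Ω).comp (algebraMap F Ω))
  have hyL : ∀ j, (gc 𝒰 fun t => ((σ t).restrictScalars k) (y t (Fin.natAdd n j))) = Φ (a j) := by
    intro j
    show gc 𝒰 _ = gc 𝒰 _
    congr 1
    funext t
    show σ t (y t (Fin.natAdd n j)) = algebraMap F Ω (a j)
    have h1 : y t (Fin.natAdd n j) = algebraMap F (L t) (a j) := Fin.append_right _ _ _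
    rw [h1]
    exact (σ t).commutes _
  have hxL : ∀ i, (gc 𝒰 fun t => ((σ t).restrictScalars k) (y t (Fin.castAdd m i))) =
      gc 𝒰 fun t => σ t (x t i) := by
    intro i
    congr 1
    funext t
    show σ t (y t (Fin.castAdd m i)) = _
    have h1 : y t (Fin.castAdd m i) = x t i := Fin.append_left _ _ _
    rw [h1]
  have hdec : ∀ (z : Fin (n + m) → GC Ω α 𝒰), (∀ j, z (Fin.natAdd n j) = Φ (a j)) → ∀ l,
      eval₂ ((gc 𝒰).comp ((Pi.constRingHom α Ω).comp (algebraMap k Ω))) z (E' l) =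
      eval₂ Φ (fun i => z (Fin.castAdd m i)) (E l) := by
    intro z hz l
    rw [← hE' l (GC Ω α 𝒰) ((gc 𝒰).comp ((Pi.constRingHom α Ω).comp (algebraMap k Ω))) Φ
      (fun i => z (Fin.castAdd m i))]
    congr 1
    funext i
    refine Fin.addCases (fun i => ?_) (fun j => ?_) i
    · rw [Fin.append_left]
    · rw [Fin.append_right, hz]
  rcases hseq with ⟨z, h1, h2, h3⟩ | ⟨v, h1, h2, h3, h4, j0, h5⟩
  · left
    have hz : ∀ j, z (Fin.natAdd n j) = Φ (a j) := fun j => by
      rw [← hyL]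
      exact h2 _ (Finset.mem_union_right _ (Finset.mem_image_of_mem _ (Finset.mem_univ j)))
    refine ⟨fun i => z (Fin.castAdd m i), fun l => ?_, fun i hi => ?_, fun h => h3 ?_⟩
    · rw [← hdec z hz]
      exact h1 l
    · rw [← hxL]
      exact h2 _ (Finset.mem_union_left _ (Finset.mem_image_of_mem _ hi))
    · funext i
      refine Fin.addCases (fun i => ?_) (fun j => ?_) i
      · rw [hxL]
        exact congrFun h i
      · rw [hz, hyL]
  · right
    have hv : ∀ s, s ≠ 0 → ∀ j, v s (Fin.natAdd n j) = Φ (a j) := fun s hs j => by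
      rw [← hyL]
      exact h3 _ (Finset.mem_image_of_mem _ (Finset.mem_univ j)) s hs
    have hchO : CharZero Ω := charZero_of_injective_algebraMap (algebraMap k Ω).injective
    have hchar : CharZero (GC Ω α 𝒰) := by
      refine charZero_of_injective_ringHom (f := (gc 𝒰).comp (Pi.constRingHom α Ω)) ?_
      exact RingHom.injective _
    refine ⟨fun s i => v s (Fin.castAdd m i), fun j => h1 _, fun l s hs => ?_, ?_, ?_⟩
    · show eval₂ Φ _ _ = 0
      rw [← hdec (v s) (hv s hs)]
      exact h2 l s hs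
    · funext i
      show v 1 (Fin.castAdd m i) = _
      rw [h4]
      exact hxL i
    · revert h5
      refine Fin.addCases (fun i => ?_) (fun j => ?_) j0
      · intro h5
        exact ⟨i, h5⟩
      · intro h5
        exact absurd (by rw [hv 2 two_ne_zero, hv 1 one_ne_zero]) h5

end Pool.Agent.N754.FV
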