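import Mathlib
import Pool.Agent.N754.FV.Nc
import Pool.Agent.N754.LT.Alg

/-!
Laurent curves through generic points, from points of large degree off every proper closed subset.
-/

set_option autoImplicit false
set_option linter.unusedSectionVars false
set_option linter.overlappingInstances false

open MvPolynomial FF Pool.Agent.W603.LV Filter

namespace Pool.Agent.N754.FV

open Pool.Agent.H159R3.Exp (Laur)
open Pool.Agent.N754.LT (LinOff z0 affine_expand)

/-- the line through two points in a fibre -/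
theorem line_eval {F M : Type} [Field F] [CommRing M] [Algebra F M] {n : ℕ} {U : Finset (Fin n)}
    {P : MvPolynomial (Fin n) F} (hP : LinOff U P) (y z : Fin n → M) (hyz : ∀ i ∈ U, z i = y i)
    (c : M) : aeval (fun j => y j + c * (z j - y j)) P = (1 - c) * aeval y P + c * aeval z P := by
  classical
  have e1 := affine_expand U P hP (fun j => y j + c * (z j - y j))
  have e2 := affine_expand U P hP y
  have e3 := affine_expand U P hP z
  have z1 : z0 U (fun j => y j + c * (z j - y j)) = z0 U y := by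
    funext j
    unfold z0
    by_cases hj : j ∈ U
    · rw [if_pos hj, if_pos hj]
      show y j + c * (z j - y j) = y j
      rw [hyz j hj, sub_self, mul_zero, add_zero]
    · rw [if_neg hj, if_neg hj]
  have z2 : z0 U z = z0 U y := by
    funext j
    unfold z0
    by_cases hj : j ∈ U
    · rw [if_pos hj, if_pos hj, hyz j hj]
    · rw [if_neg hj, if_neg hj]
  rw [e1, e2, e3, z1, z2]
  have h9 : ∑ j ∈ Uᶜ, (y j + c * (z j - y j)) * aeval (z0 U y) (pderiv j P) =
      (1 - c) * ∑ j ∈ Uᶜ, y j * aeval (z0 U y) (pderiv j P) +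
        c * ∑ j ∈ Uᶜ, z j * aeval (z0 U y) (pderiv j P) := by
    rw [Finset.mul_sum, Finset.mul_sum, ← Finset.sum_add_distrib]
    refine Finset.sum_congr rfl fun j _ => ?_
    ring
  rw [h9]
  ring

/-- an ultrafilter for the complements of the proper closed subsets -/
theorem exists_uf {R : Type} [CommRing R] (p : Ideal R) [hp : p.IsPrime] :
    ∃ 𝒰 : Ultrafilter ({G : R // G ∉ p} × ℕ),
      (∀ G, G ∉ p → ∀ᶠ t in (𝒰 : Filter ({G : R // G ∉ p} × ℕ)), G ∣ t.1.1) ∧
      ∀ C : ℕ, ∀ᶠ t in (𝒰 : Filter ({G : R // G ∉ p} × ℕ)), C ≤ t.2 := by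
  let α := {G : R // G ∉ p} × ℕ
  have h1 : (1 : R) ∉ p := p.ne_top_iff_one.1 hp.ne_top
  have : Nonempty α := ⟨(⟨1, h1⟩, 0)⟩
  let B : α → Set α := fun a => {b | a.1.1 ∣ b.1.1 ∧ a.2 ≤ b.2}
  have hne : (⨅ a : α, 𝓟 (B a)).NeBot := by
    apply iInf_neBot_of_directed'
    · intro a b
      refine ⟨(⟨a.1.1 * b.1.1, fun h => ?_⟩, max a.2 b.2), ?_, ?_⟩
      · rcases hp.mem_or_mem h with h | h
        · exact a.1.2 h
        · exact b.1.2 h
      · show 𝓟 (B _) ≤ 𝓟 (B a)
        rw [principal_mono]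
        rintro c ⟨hc1, hc2⟩
        exact ⟨(dvd_mul_right _ _).trans hc1, (le_max_left _ _).trans hc2⟩
      · show 𝓟 (B _) ≤ 𝓟 (B b)
        rw [principal_mono]
        rintro c ⟨hc1, hc2⟩
        exact ⟨(dvd_mul_left _ _).trans hc1, (le_max_right _ _).trans hc2⟩
    · intro a
      rw [principal_neBot_iff]
      exact ⟨a, dvd_refl _, le_refl _⟩
  let 𝒰 : Ultrafilter α := Ultrafilter.of (⨅ a : α, 𝓟 (B a))
  have hle : (𝒰 : Filter α) ≤ ⨅ a : α, 𝓟 (B a) := Ultrafilter.of_le _
  have hmem : ∀ a : α, B a ∈ (𝒰 : Filter α) := fun a =>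
    (hle.trans (iInf_le _ a)) (mem_principal_self _)
  refine ⟨𝒰, fun G hG => ?_, fun C => ?_⟩
  · filter_upwards [hmem (⟨G, hG⟩, 0)] with t ht
    exact ht.1
  · filter_upwards [hmem (⟨1, h1⟩, C)] with t ht
    exact ht.2

/-- **Laurent curves through generic points**, from points over finite extensions of a function
field. -/
theorem genF {k F : Type} [Field k] [IsAlgClosed k] [CharZero k] [Field F] [Algebra k F]
    [IsFF k F] (hWR : WR) (hEMB : EMB) {n : ℕ} (U : Finset (Fin n)) {ι : Type} [Finite ι]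
    (E : ι → MvPolynomial (Fin n) F) (Ω : Type) [Field Ω] [Algebra F Ω] [IsAlgClosed Ω]
    (hU : ∀ z : Fin n → Ω, (∀ l, aeval z (E l) = 0) → ∀ i ∈ U, z i ≠ 0)
    (hlin : ∀ l, LinOff U (E l)) (p : Ideal (MvPolynomial (Fin n) F)) [p.IsPrime]
    (hEp : ∀ l, E l ∈ p)
    (hno : ∀ G, G ∉ p → ∀ C : ℕ, ∃ (L : Type) (_ : Field L) (_ : Algebra k L) (_ : Algebra F L)
      (_ : IsScalarTower k F L) (_ : FiniteDimensional F L) (S : Finset (Place k L))
      (x : Fin n → L), (∀ i, ∀ P ∉ S, 0 ≤ P.ord (x i)) ∧ (∀ Q ∈ p, aeval x Q = 0) ∧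
      aeval x G ≠ 0 ∧ (C : ℤ) * (canDeg k L + S.card + 3 * Module.finrank F L) ≤ mapDeg k x) :
    ∃ (M : Type) (_ : Field M) (_ : Algebra F M) (v : M → Fin n → M),
      (∀ j, Laur fun t => v t j) ∧ (∀ l s, s ≠ 0 → aeval (v s) (E l) = 0) ∧
      (∀ Q, aeval (v 1) Q = 0 ↔ Q ∈ p) ∧ ∃ j, v 2 j ≠ v 1 j := by
  classical
  obtain ⟨𝒰, h𝒰1, h𝒰2⟩ := exists_uf p
  let α := {G : MvPolynomial (Fin n) F // G ∉ p} × ℕ
  have hno' := fun t : α => hno t.1.1 t.1.2 t.2
  choose L i1 i2 i3 i4 i5 S x hx1 hx2 hx3 hx4 using hno'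
  let σ : ∀ t, L t →ₐ[F] Ω := fun t => IsAlgClosed.lift
  have hcan : ∀ t, (-2 : ℤ) ≤ canDeg k (L t) := fun t => by
    have : IsFF k (L t) := Pool.Agent.W603.PV.isFF_of_finite (k := k) (F := F) (L := L t)
    have : CharZero (L t) := charZero_of_injective_algebraMap (algebraMap k (L t)).injective
    exact (hEMB k (L t)).1
  have hW : ∀ t, (1 : ℤ) ≤ canDeg k (L t) + (S t).card + 3 * Module.finrank F (L t) := fun t => by
    have h1 := hcan t
    have h2 : 0 < Module.finrank F (L t) := Module.finrank_pos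
    omega
  have hbig : ∀ C : ℝ, ∀ᶠ t in (𝒰 : Filter α), C * ((canDeg k (L t) + (S t).card +
      3 * Module.finrank F (L t) : ℤ) : ℝ) ≤ ((mapDeg k (x t) : ℤ) : ℝ) := by
    intro C
    obtain ⟨C', hC'⟩ := exists_nat_ge C
    filter_upwards [h𝒰2 C'] with t ht
    have h1 : (((t.2 : ℤ) * (canDeg k (L t) + (S t).card + 3 * Module.finrank F (L t)) : ℤ) : ℝ) ≤
        ((mapDeg k (x t) : ℤ) : ℝ) := by exact_mod_cast hx4 t
    refine le_trans ?_ h1
    have h2 : (1 : ℝ) ≤ ((canDeg k (L t) + (S t).card + 3 * Module.finrank F (L t) : ℤ) : ℝ) := by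
      exact_mod_cast hW t
    have h3 : (C' : ℝ) ≤ (t.2 : ℝ) := by exact_mod_cast ht
    rw [Int.cast_mul, Int.cast_natCast]
    exact mul_le_mul_of_nonneg_right (hC'.trans h3) (by linarith)
  have hnonc := nonc hWR hEMB 𝒰 L σ S x U E hU hx1 (fun t l => hx2 t _ (hEp l)) hbig
  let Φ : F →+* GC Ω α 𝒰 := (gc 𝒰).comp ((Pi.constRingHom α Ω).comp (algebraMap F Ω))
  let : Algebra F (GC Ω α 𝒰) := Φ.toAlgebra
  have hcharF : CharZero F := charZero_of_injective_algebraMap (algebraMap k F).injective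
  have hchar : CharZero (GC Ω α 𝒰) := charZero_of_injective_ringHom Φ.injective
  let y : Fin n → GC Ω α 𝒰 := fun i => gc 𝒰 fun t => σ t (x t i)
  have hy : ∀ Q, aeval y Q = 0 ↔ Q ∈ p := by
    intro Q
    have h1 : aeval y Q = gc 𝒰 fun t => σ t (aeval (x t) Q) := by
      have h2 : aeval y Q = eval₂ Φ y Q := rfl
      rw [h2, gc_eval 𝒰 (algebraMap F Ω) (fun t i => σ t (x t i))]
      congr 1
      funext t
      have h3 : σ t (aeval (x t) Q) = aeval (fun i => σ t (x t i)) Q := by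
        have h4 : (σ t).comp (aeval (x t)) = aeval (R := F) fun i => σ t (x t i) := by
          apply MvPolynomial.algHom_ext
          intro i
          rw [AlgHom.comp_apply, aeval_X, aeval_X]
        rw [← h4]
        rfl
      rw [h3, aeval_def]
    rw [h1, gc_zero]
    constructor
    · intro h
      by_contra hQ
      obtain ⟨t, ht1, ht2⟩ := (h.and (h𝒰1 Q hQ)).exists
      obtain ⟨R, hR⟩ := ht2
      apply hx3 t
      have h5 : aeval (x t) Q = 0 := (map_eq_zero_iff (σ t) (σ t).injective).1 ht1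
      rw [hR, map_mul, h5, zero_mul]
    · intro hQ
      exact Eventually.of_forall fun t => by rw [hx2 t Q hQ, map_zero]
  refine ⟨GC Ω α 𝒰, inferInstance, inferInstance, ?_⟩
  rcases hnonc with ⟨z, h1, h2, h3⟩ | ⟨v, h1, h2, h3, h4⟩
  · have hv1 : (fun j => y j + (1 - 1) * (z j - y j)) = y := by
      funext j
      rw [sub_self, zero_mul, add_zero]
    refine ⟨fun s j => y j + (s - 1) * (z j - y j), fun j => ?_, fun l s _ => ?_, fun Q => ?_, ?_⟩
    · have h5 : (fun s : GC Ω α 𝒰 => y j + (s - 1) * (z j - y j)) =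
          fun s => y j + (s + (-1)) * (z j + -y j) := by
        funext s
        rw [sub_eq_add_neg s 1, sub_eq_add_neg (z j) (y j)]
      rw [h5]
      exact (Laur.const _).add ((Laur.id.add (Laur.const _)).mul (Laur.const _))
    · have h5 : aeval y (E l) = 0 := (hy _).2 (hEp l)
      have h6 : aeval z (E l) = 0 := h1 l
      rw [line_eval (hlin l) y z h2, h5, h6, mul_zero, mul_zero, add_zero]
    · show aeval (fun j => y j + (1 - 1) * (z j - y j)) Q = 0 ↔ _
      rw [hv1]
      exact hy Q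
    · obtain ⟨j, hj⟩ := Function.ne_iff.1 h3
      refine ⟨j, fun h => hj ?_⟩
      have h5 : y j + (2 - 1) * (z j - y j) = y j + (1 - 1) * (z j - y j) := h
      show z j = y j
      linear_combination h5
  · refine ⟨v, h1, h2, fun Q => ?_, h4⟩
    rw [h3]
    exact hy Q

/-- **Laurent curves through generic points**, from maps of affine curves to a variety over the
constants. -/
theorem genC {k : Type} [Field k] [IsAlgClosed k] [CharZero k] (hWR : WR) (hEMB : EMB) {n : ℕ}
    (U : Finset (Fin n)) {ι : Type} (E : ι → MvPolynomial (Fin n) k)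
    (hU : ∀ z : Fin n → k, (∀ l, aeval z (E l) = 0) → ∀ i ∈ U, z i ≠ 0)
    (hlin : ∀ l, LinOff U (E l)) (p : Ideal (MvPolynomial (Fin n) k)) [p.IsPrime]
    (hEp : ∀ l, E l ∈ p)
    (hno : ∀ G, G ∉ p → ∀ C : ℕ, ∃ (K : Type) (_ : Field K) (_ : Algebra k K) (_ : IsFF k K)
      (S : Finset (Place k K)) (x : Fin n → K), (∀ i, ∀ P ∉ S, 0 ≤ P.ord (x i)) ∧
      (∀ Q ∈ p, aeval x Q = 0) ∧ aeval x G ≠ 0 ∧ (C : ℤ) * max (euler S) 1 ≤ mapDeg k x) :
    ∃ (M : Type) (_ : Field M) (_ : Algebra k M) (v : M → Fin n → M),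
      (∀ j, Laur fun t => v t j) ∧ (∀ l s, s ≠ 0 → aeval (v s) (E l) = 0) ∧
      (∀ Q, aeval (v 1) Q = 0 ↔ Q ∈ p) ∧ ∃ j, v 2 j ≠ v 1 j := by
  classical
  obtain ⟨𝒰, h𝒰1, h𝒰2⟩ := exists_uf p
  let α := {G : MvPolynomial (Fin n) k // G ∉ p} × ℕ
  have hno' := fun t : α => hno t.1.1 t.1.2 t.2
  choose K i1 i2 i3 S x hx1 hx2 hx3 hx4 using hno'
  let Ω := AlgebraicClosure (RatFunc k)
  have hΩ : ∃ z : Ω, Transcendental k z := by
    refine ⟨algebraMap (RatFunc k) Ω RatFunc.X, ?_⟩
    rw [transcendental_algebraMap_iff (algebraMap (RatFunc k) Ω).injective]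
    exact RatFunc.transcendental_X
  have hCK : ∀ t, CharZero (K t) := fun t =>
    charZero_of_injective_algebraMap (algebraMap k (K t)).injective
  have hσ : ∀ t, Nonempty (K t →ₐ[k] Ω) := fun t => (hEMB k (K t)).2 Ω hΩ
  let σ : ∀ t, K t →ₐ[k] Ω := fun t => (hσ t).some
  have hcan : ∀ t, (-2 : ℤ) ≤ canDeg k (K t) := fun t => (hEMB k (K t)).1
  have hsz : ∀ t, ((mapDeg k (x t) : ℤ) : ℝ) ≤ sz (S t) (x t) := fun t =>
    mapDeg_le_sz (S t) (x t) (hx1 t)
  have hbig : ∀ C : ℝ, ∀ᶠ t in (𝒰 : Filter α), C * ((max (euler (S t)) 1 : ℤ) : ℝ) ≤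
      sz (S t) (x t) := by
    intro C
    obtain ⟨C', hC'⟩ := exists_nat_ge C
    filter_upwards [h𝒰2 C'] with t ht
    have h1 : (((t.2 : ℤ) * max (euler (S t)) 1 : ℤ) : ℝ) ≤
        ((mapDeg k (x t) : ℤ) : ℝ) := by exact_mod_cast hx4 t
    refine le_trans ?_ (h1.trans (hsz t))
    have h2 : (1 : ℝ) ≤ ((max (euler (S t)) 1 : ℤ) : ℝ) := by exact_mod_cast le_max_right _ _
    have h3 : (C' : ℝ) ≤ (t.2 : ℝ) := by exact_mod_cast ht
    rw [Int.cast_mul, Int.cast_natCast]
    exact mul_le_mul_of_nonneg_right (hC'.trans h3) (by linarith)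
  have hsmall : ∀ (f : α → ℝ) (c : ℝ), (∀ t, f t ≤ c * ((max (euler (S t)) 1 : ℤ) : ℝ)) →
      0 ≤ c → ∀ ε : ℝ, 0 < ε → ∀ᶠ t in (𝒰 : Filter α), f t ≤ ε * sz (S t) (x t) := by
    intro f c hf hc ε hε
    filter_upwards [hbig (c / ε)] with t ht
    refine (hf t).trans ?_
    have h1 := mul_le_mul_of_nonneg_left ht hε.le
    calc c * ((max (euler (S t)) 1 : ℤ) : ℝ) = ε * (c / ε * ((max (euler (S t)) 1 : ℤ) : ℝ)) := by
          field_simp
      _ ≤ _ := h1
  have hcert : ∀ i ∈ U, ∃ B : MvPolynomial (Fin n) k,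
      B * MvPolynomial.X i - 1 ∈ Ideal.span (Set.range E) :=
    fun i hi => unit_certF (Ω := k) E i fun z hz => hU z hz i hi
  have hseq := seq hWR 𝒰 K σ S x U ∅ E (Eventually.of_forall hx1)
    (fun l => Eventually.of_forall fun t => hx2 t _ (hEp l))
    (fun i hi => by
      obtain ⟨B, hB⟩ := hcert i hi
      refine ⟨B, Eventually.of_forall fun t => ?_⟩
      have h4 : aeval (x t) (B * MvPolynomial.X i - 1) = 0 := by
        have h5 : Ideal.span (Set.range E) ≤ RingHom.ker (aeval (R := k) (x t)) := by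
          rw [Ideal.span_le]
          rintro _ ⟨l, rfl⟩
          exact hx2 t _ (hEp l)
        exact h5 hB
      rw [map_sub, map_mul, aeval_X, map_one, sub_eq_zero] at h4
      exact h4)
    (fun C => by
      filter_upwards [hbig (max C 0)] with t ht
      refine le_trans ?_ ht
      have h2 : (1 : ℝ) ≤ ((max (euler (S t)) 1 : ℤ) : ℝ) := by exact_mod_cast le_max_right _ _
      calc C ≤ max C 0 := le_max_left _ _
        _ = max C 0 * 1 := (mul_one _).symm
        _ ≤ _ := mul_le_mul_of_nonneg_left h2 (le_max_right _ _))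
    (hsmall (fun t => ((S t).card : ℝ)) 3 (fun t => by
      have h1 : ((S t).card : ℤ) ≤ 3 * max (euler (S t)) 1 := by
        have h2 := hcan t
        have h3 : euler (S t) = canDeg k (K t) + (S t).card := rfl
        have h4 := le_max_left (euler (S t)) 1
        have h5 := le_max_right (euler (S t)) 1
        omega
      exact_mod_cast h1) (by norm_num))
    (hsmall (fun t => ((euler (S t) : ℤ) : ℝ)) 1 (fun t => by
      rw [one_mul]
      exact_mod_cast le_max_left _ _) zero_le_one)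
    (fun i hi => absurd hi (Finset.notMem_empty i))
  let Φ : k →+* GC Ω α 𝒰 := (gc 𝒰).comp ((Pi.constRingHom α Ω).comp (algebraMap k Ω))
  let : Algebra k (GC Ω α 𝒰) := Φ.toAlgebra
  have hchar : CharZero (GC Ω α 𝒰) := charZero_of_injective_ringHom Φ.injective
  let y : Fin n → GC Ω α 𝒰 := fun i => gc 𝒰 fun t => σ t (x t i)
  have hy : ∀ Q, aeval y Q = 0 ↔ Q ∈ p := by
    intro Q
    have h1 : aeval y Q = gc 𝒰 fun t => σ t (aeval (x t) Q) := by
      have h2 : aeval y Q = eval₂ Φ y Q := rfl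
      rw [h2, gc_eval 𝒰 (algebraMap k Ω) (fun t i => σ t (x t i))]
      congr 1
      funext t
      have h3 : σ t (aeval (x t) Q) = aeval (fun i => σ t (x t i)) Q := by
        have h4 : (σ t).comp (aeval (x t)) = aeval (R := k) fun i => σ t (x t i) := by
          apply MvPolynomial.algHom_ext
          intro i
          rw [AlgHom.comp_apply, aeval_X, aeval_X]
        rw [← h4]
        rfl
      rw [h3, aeval_def]
    rw [h1, gc_zero]
    constructor
    · intro h
      by_contra hQ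
      obtain ⟨t, ht1, ht2⟩ := (h.and (h𝒰1 Q hQ)).exists
      obtain ⟨R, hR⟩ := ht2
      apply hx3 t
      have h5 : aeval (x t) Q = 0 := (map_eq_zero_iff (σ t) (σ t).injective).1 ht1
      rw [hR, map_mul, h5, zero_mul]
    · intro hQ
      exact Eventually.of_forall fun t => by rw [hx2 t Q hQ, map_zero]
  refine ⟨GC Ω α 𝒰, inferInstance, inferInstance, ?_⟩
  rcases hseq with ⟨z, h1, h2, h3⟩ | ⟨v, h1, h2, -, h3, h4⟩
  · have hv1 : (fun j => y j + (1 - 1) * (z j - y j)) = y := by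
      funext j
      rw [sub_self, zero_mul, add_zero]
    refine ⟨fun s j => y j + (s - 1) * (z j - y j), fun j => ?_, fun l s _ => ?_, fun Q => ?_, ?_⟩
    · have h5 : (fun s : GC Ω α 𝒰 => y j + (s - 1) * (z j - y j)) =
          fun s => y j + (s + (-1)) * (z j + -y j) := by
        funext s
        rw [sub_eq_add_neg s 1, sub_eq_add_neg (z j) (y j)]
      rw [h5]
      exact (Laur.const _).add ((Laur.id.add (Laur.const _)).mul (Laur.const _))
    · have h5 : aeval y (E l) = 0 := (hy _).2 (hEp l)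
      have h6 : aeval z (E l) = 0 := h1 l
      rw [line_eval (hlin l) y z fun i hi => h2 i (Finset.mem_union_left _ hi), h5, h6, mul_zero,
        mul_zero, add_zero]
    · show aeval (fun j => y j + (1 - 1) * (z j - y j)) Q = 0 ↔ _
      rw [hv1]
      exact hy Q
    · obtain ⟨j, hj⟩ := Function.ne_iff.1 h3
      refine ⟨j, fun h => hj ?_⟩
      have h5 : y j + (2 - 1) * (z j - y j) = y j + (1 - 1) * (z j - y j) := h
      show z j = y j
      linear_combination h5
  · refine ⟨v, h1, h2, fun Q => ?_, h4⟩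
    rw [h3]
    exact hy Q

end Pool.Agent.N754.FV
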