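import Mathlib
import Pool.Agent.N131.FV.Lgt
import Pool.Agent.H159R3.Exp.Laur

/-!
An irreducible component of an affine variety with a Laurent curve through its generic point is not
of logarithmic general type.
-/

set_option autoImplicit false

open MvPolynomial

namespace Pool.Agent.N754.FV

open Pool.Agent.H159R3.Exp (Laur)
open Pool.Agent.W602.GT (IsForm LogGeneralType)
open Pool.Agent.W603.GR (OffQ SubVarP)

/-- The closed subvariety of affine space with the prime ideal `p` is of logarithmic general type:
`K` is its function field, `y` its generic point. -/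
def LogGT {F : Type} [Field F] {n : ℕ} (p : Ideal (MvPolynomial (Fin n) F)) : Prop :=
  ∃ (K : Type) (_ : Field K) (_ : Algebra F K) (y : Fin n → K) (w : ℕ),
    (∀ Q, aeval y Q = 0 ↔ Q ∈ p) ∧ IntermediateField.adjoin F (Set.range y) = ⊤ ∧
    LogGeneralType F K w (fun P => ∃ j, P.ord (y j) < 0)

/-- the polynomials vanishing on a curve -/
noncomputable def curveIdeal {F : Type} [Field F] {n : ℕ} {M : Type} [Field M] [Algebra F M]
    (v : M → Fin n → M) : Ideal (MvPolynomial (Fin n) F) :=
  ⨅ s : {s : M // s ≠ 0}, RingHom.ker (aeval (R := F) (v s.1))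

theorem mem_curveIdeal {F : Type} [Field F] {n : ℕ} {M : Type} [Field M] [Algebra F M]
    (v : M → Fin n → M) (Q : MvPolynomial (Fin n) F) :
    Q ∈ curveIdeal v ↔ ∀ s, s ≠ 0 → aeval (v s) Q = 0 := by
  unfold curveIdeal
  rw [Ideal.mem_iInf]
  exact ⟨fun h s hs => h ⟨s, hs⟩, fun h s => h s.1 s.2⟩

theorem curveIdeal_prime {F : Type} [Field F] {n : ℕ} {M : Type} [Field M] [CharZero M]
    [Algebra F M] (v : M → Fin n → M) (hv : ∀ j, Laur fun t => v t j) :
    (curveIdeal (F := F) v).IsPrime := by
  refine ⟨fun h => ?_, fun {a b} hab => ?_⟩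
  · have h1 : (1 : MvPolynomial (Fin n) F) ∈ curveIdeal v := by rw [h]; trivial
    rw [mem_curveIdeal] at h1
    have h2 := h1 1 one_ne_zero
    rw [map_one] at h2
    exact one_ne_zero h2
  · by_contra hcon
    push Not at hcon
    obtain ⟨ha, hb⟩ := hcon
    rw [mem_curveIdeal] at ha hb hab
    push Not at ha hb
    have h1 : ∀ Q : MvPolynomial (Fin n) F, (∃ s, s ≠ 0 ∧ aeval (v s) Q ≠ 0) →
        {m : ℕ | aeval (v (2 ^ m)) Q = 0}.Finite := by
      intro Q hQ
      have h2 : Laur fun t => aeval (v t) Q := Laur.eval₂ (algebraMap F M) v hv Q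
      exact h2.finite_zeros hQ
    have h2 := (h1 a ha).union (h1 b hb)
    obtain ⟨m, hm⟩ := h2.infinite_compl.nonempty
    apply hm
    have h3 := hab (2 ^ m) (pow_ne_zero _ two_ne_zero)
    rw [map_mul] at h3
    rcases mul_eq_zero.1 h3 with h | h
    · exact Or.inl h
    · exact Or.inr h

/-- the ideal of a curve through the generic point of a component -/
theorem mem_of_minimal {F : Type} [Field F] {n : ℕ} {ι : Type}
    (E : ι → MvPolynomial (Fin n) F) {p : Ideal (MvPolynomial (Fin n) F)}
    (hp : p ∈ (Ideal.span (Set.range E)).minimalPrimes)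
    {M : Type} [Field M] [CharZero M] [Algebra F M] (v : M → Fin n → M)
    (hv : ∀ j, Laur fun t => v t j) (hvE : ∀ l s, s ≠ 0 → aeval (v s) (E l) = 0)
    (hgen : ∀ Q, aeval (v 1) Q = 0 → Q ∈ p) (Q : MvPolynomial (Fin n) F) (hQ : Q ∈ p) (s : M)
    (hs : s ≠ 0) : aeval (v s) Q = 0 := by
  have h1 : p ≤ curveIdeal v := by
    refine hp.2 ⟨curveIdeal_prime v hv, ?_⟩ ?_
    · rw [Ideal.span_le]
      rintro _ ⟨l, rfl⟩
      exact (mem_curveIdeal v _).2 (hvE l)
    · intro R hR
      exact hgen R ((mem_curveIdeal v _).1 hR 1 one_ne_zero)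
  exact (mem_curveIdeal v Q).1 (h1 hQ) s hs

/-- dehomogenisation -/
theorem aeval_homog {F : Type} [Field F] {n : ℕ} {R : Type} [CommRing R] [Algebra F R]
    (G : MvPolynomial (Fin (n + 1)) F) (y : Fin n → R) :
    aeval (Fin.cons 1 y : Fin (n + 1) → R) G =
      aeval y (aeval (Fin.cons 1 X : Fin (n + 1) → MvPolynomial (Fin n) F) G) := by
  have h1 : (aeval (Fin.cons 1 y : Fin (n + 1) → R) : MvPolynomial (Fin (n + 1)) F →ₐ[F] R) =
      (aeval y).comp (aeval (Fin.cons 1 X : Fin (n + 1) → MvPolynomial (Fin n) F)) := by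
    apply MvPolynomial.algHom_ext
    intro j
    rw [AlgHom.comp_apply, aeval_X, aeval_X]
    refine Fin.cases ?_ (fun i => ?_) j
    · rw [Fin.cons_zero, Fin.cons_zero, map_one]
    · rw [Fin.cons_succ, Fin.cons_succ, aeval_X]
  rw [h1]
  rfl

/-- scaling in a form -/
theorem aeval_form_smul {F : Type} [Field F] {m d : ℕ} {R : Type} [CommRing R] [Algebra F R]
    {G : MvPolynomial (Fin m) F} (hG : G.IsHomogeneous d) (c : R) (z : Fin m → R) :
    aeval (fun j => c * z j) G = c ^ d * aeval z G := by
  rw [MvPolynomial.aeval_def, MvPolynomial.aeval_def, MvPolynomial.eval₂_eq',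
    MvPolynomial.eval₂_eq', Finset.mul_sum]
  refine Finset.sum_congr rfl fun s hs => ?_
  have h1 : ∑ i, s i = d := by
    have h2 := hG (MvPolynomial.mem_support_iff.1 hs)
    rw [Finsupp.weight_apply, Finsupp.sum_fintype] at h2
    · simpa using h2
    · intro i
      simp
  have h3 : ∏ i, (c * z i) ^ s i = c ^ d * ∏ i, z i ^ s i := by
    rw [← h1, ← Finset.prod_pow_eq_pow_sum, ← Finset.prod_mul_distrib]
    exact Finset.prod_congr rfl fun i _ => mul_pow _ _ _
  rw [h3]
  ring

/-- **A component with a Laurent curve through its generic point is not of logarithmic general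
type.** -/
theorem not_logGT {F : Type} [Field F] [CharZero F] {n : ℕ} {ι : Type}
    (E : ι → MvPolynomial (Fin n) F) {p : Ideal (MvPolynomial (Fin n) F)}
    (hp : p ∈ (Ideal.span (Set.range E)).minimalPrimes)
    {M : Type} [Field M] [Algebra F M] (v : M → Fin n → M)
    (hv : ∀ j, Laur fun t => v t j) (hvE : ∀ l s, s ≠ 0 → aeval (v s) (E l) = 0)
    (hgen : ∀ Q, aeval (v 1) Q = 0 ↔ Q ∈ p) (hne : ∃ j, v 2 j ≠ v 1 j) : ¬ LogGT p := by
  classical
  rintro ⟨K, _, _, y, w, hy1, hy2, hL⟩
  have hchar : CharZero M := charZero_of_injective_algebraMap (algebraMap F M).injective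
  obtain ⟨e, Q, hQ⟩ := Laur.common v hv
  let P : Fin (n + 1) → Polynomial M := Fin.cons (Polynomial.X ^ e) Q
  let y' : Fin (n + 1) → K := Fin.cons 1 y
  have hval : ∀ G : MvPolynomial (Fin (n + 1)) F, Pool.Agent.W602.GT.val y' G =
      aeval y (aeval (Fin.cons 1 X : Fin (n + 1) → MvPolynomial (Fin n) F) G) := fun G =>
    aeval_homog G y
  have hPs : ∀ s : M, s ≠ 0 → (fun j => (P j).eval s) =
      fun j => s ^ e * (Fin.cons 1 (v s) : Fin (n + 1) → M) j := by
    intro s hs
    funext j
    refine Fin.cases ?_ (fun i => ?_) j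
    · simp only [P, Fin.cons_zero, Polynomial.eval_pow, Polynomial.eval_X, mul_one]
    · simp only [P, Fin.cons_succ]
      rw [hQ s hs i, mul_div_cancel₀ _ (pow_ne_zero _ hs)]
  have hev : ∀ (G : MvPolynomial (Fin (n + 1)) F) (s : M), (aeval P G).eval s =
      aeval (fun j => (P j).eval s) G := by
    intro G s
    have h1 : ((Polynomial.aeval s).restrictScalars F).comp (aeval P) =
        (aeval fun j => (P j).eval s : MvPolynomial (Fin (n + 1)) F →ₐ[F] M) := by
      apply MvPolynomial.algHom_ext
      intro j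
      rw [AlgHom.comp_apply, aeval_X, aeval_X]
      exact congrFun (Polynomial.coe_aeval_eq_eval s) (P j)
    have h2 := DFunLike.congr_fun h1 G
    rw [← h2]
    exact (congrFun (Polynomial.coe_aeval_eq_eval s) (aeval P G)).symm
  have hrel : ∀ G : MvPolynomial (Fin (n + 1)) F, IsForm G →
      (Pool.Agent.W602.GT.val y' G = 0 ↔ aeval P G = 0) := by
    rintro G ⟨d, hd⟩
    rw [hval, hy1]
    have hsc : ∀ s : M, s ≠ 0 → (aeval P G).eval s = (s ^ e) ^ d *
        aeval (v s) (aeval (Fin.cons 1 X : Fin (n + 1) → MvPolynomial (Fin n) F) G) := by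
      intro s hs
      rw [hev, hPs s hs, aeval_form_smul hd, aeval_homog]
    constructor
    · intro hg
      apply Polynomial.eq_zero_of_infinite_isRoot
      refine Set.infinite_of_injective_forall_mem (f := fun m : ℕ => ((m : M) + 1)) ?_ ?_
      · intro a b hab
        have h3 : (a : M) + 1 = (b : M) + 1 := hab
        exact_mod_cast add_right_cancel h3
      · intro m
        show (aeval P G).eval ((m : M) + 1) = 0
        have h3 : (m : M) + 1 ≠ 0 := Nat.cast_add_one_ne_zero m
        rw [hsc _ h3, mem_of_minimal E hp v hv hvE (fun Q hQ => (hgen Q).1 hQ) _ hg _ h3, mul_zero]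
    · intro h0
      rw [← hgen]
      have h3 := hsc 1 one_ne_zero
      rw [h0, Polynomial.eval_zero, one_pow, one_pow, one_mul] at h3
      exact h3.symm
  have hsub : SubVarP (⊥ : Ideal (MvPolynomial (Fin (n + 1)) F)) (X 0) K w y' := by
    refine ⟨?_, ?_, ?_, ?_, hL.1⟩
    · intro h0
      have h1 := congrFun h0 0
      simp only [y', Fin.cons_zero, Pi.zero_apply] at h1
      exact one_ne_zero h1
    · intro H hH
      rw [(Ideal.mem_bot).1 hH]
      exact map_zero _
    · show aeval y' (X 0) ≠ 0
      rw [aeval_X]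
      simp only [y', Fin.cons_zero]
      exact one_ne_zero
    · rw [eq_top_iff, ← hy2]
      unfold Pool.Agent.W602.GT.coords
      rw [IntermediateField.adjoin_le_iff]
      rintro _ ⟨i, rfl⟩
      apply IntermediateField.subset_adjoin
      refine ⟨i.succ, 0, ?_, ?_⟩
      · simp only [y', Fin.cons_zero]
        exact one_ne_zero
      · simp only [y', Fin.cons_zero, Fin.cons_succ, div_one]
  refine Pool.Agent.N131.FV.lgt (Q := X 0) (q := 1) (isHomogeneous_X F 0) hsub (P := P) hrel
    ⟨1, e, one_ne_zero, ?_⟩ ?_ ?_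
  · rw [aeval_X, Polynomial.C_1, one_mul]
    rfl
  · by_contra hcon
    push Not at hcon
    obtain ⟨j, hj⟩ := hne
    apply hj
    have h1 := hcon 0 j.succ
    simp only [P, Fin.cons_zero, Fin.cons_succ] at h1
    have h2 : Polynomial.X * Polynomial.derivative (Q j) = (e : Polynomial M) * Q j := by
      have h3 : (Polynomial.X : Polynomial M) ^ e ≠ 0 := pow_ne_zero _ Polynomial.X_ne_zero
      apply mul_left_cancel₀ h3
      have h4 : Polynomial.derivative ((Polynomial.X : Polynomial M) ^ e) * Polynomial.X =
          (e : Polynomial M) * Polynomial.X ^ e := by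
        rw [Polynomial.derivative_X_pow]
        rcases e with - | e
        · simp
        · rw [Nat.add_sub_cancel, pow_succ, mul_assoc]
          simp
      calc Polynomial.X ^ e * (Polynomial.X * Polynomial.derivative (Q j))
          = (Polynomial.X ^ e * Polynomial.derivative (Q j)) * Polynomial.X := by ring
        _ = (Polynomial.derivative (Polynomial.X ^ e) * Q j) * Polynomial.X := by rw [h1]
        _ = (Polynomial.derivative (Polynomial.X ^ e) * Polynomial.X) * Q j := by ring
        _ = _ := by rw [h4]; ring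
    have h3 : ∀ m, m ≠ e → (Q j).coeff m = 0 := by
      intro m hm
      have h4 : (Polynomial.X * Polynomial.derivative (Q j)).coeff m =
          ((e : Polynomial M) * Q j).coeff m := by rw [h2]
      have h5 : (Polynomial.X * Polynomial.derivative (Q j)).coeff m = (m : M) * (Q j).coeff m := by
        rcases m with - | m
        · simp
        · rw [Polynomial.coeff_X_mul, Polynomial.coeff_derivative]
          push_cast
          ring
      rw [h5, Polynomial.coeff_natCast_mul] at h4
      have h6 : ((m : M) - e) * (Q j).coeff m = 0 := by linear_combination h4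
      rcases mul_eq_zero.1 h6 with h | h
      · exact absurd (by exact_mod_cast sub_eq_zero.1 h) hm
      · exact h
    have h4 : Q j = Polynomial.C ((Q j).coeff e) * Polynomial.X ^ e := by
      ext m
      rw [Polynomial.coeff_C_mul, Polynomial.coeff_X_pow]
      by_cases hm : m = e
      · rw [if_pos hm, mul_one, hm]
      · rw [if_neg hm, mul_zero, h3 m hm]
    have h5 : ∀ s : M, s ≠ 0 → v s j = (Q j).coeff e := by
      intro s hs
      rw [hQ s hs j]
      conv_lhs => rw [h4]
      rw [Polynomial.eval_mul, Polynomial.eval_C, Polynomial.eval_pow, Polynomial.eval_X,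
        mul_div_cancel_right₀ _ (pow_ne_zero _ hs)]
    rw [h5 2 two_ne_zero, h5 1 one_ne_zero]
  · have hBd : OffQ (X 0 : MvPolynomial (Fin (n + 1)) F) 1 y' =
        fun P => ∃ j, P.ord (y j) < 0 := by
      funext P
      apply propext
      have h0 : Pool.Agent.W602.GT.val y' (X 0 : MvPolynomial (Fin (n + 1)) F) = 1 := by
        show aeval y' (X 0) = 1
        rw [aeval_X]
        rfl
      unfold OffQ
      rw [h0, P.ord_one]
      constructor
      · rintro ⟨i, hi1, hi2⟩
        revert hi1 hi2
        refine Fin.cases ?_ (fun i => ?_) i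
        · intro _ hi2
          simp only [y', Fin.cons_zero] at hi2
          rw [P.ord_one] at hi2
          omega
        · intro _ hi2
          simp only [y', Fin.cons_succ] at hi2
          exact ⟨i, by push_cast at hi2; omega⟩
      · rintro ⟨j, hj⟩
        refine ⟨j.succ, ?_, ?_⟩
        · simp only [y', Fin.cons_succ]
          intro h
          rw [h, P.ord_zero] at hj
          omega
        · simp only [y', Fin.cons_succ]
          push_cast
          omega
    rw [hBd]
    exact hL

end Pool.Agent.N754.FV
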