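import Mathlib
import Pool.Agent.N754.FV.Gen
import Pool.Agent.N754.FV.Lg

/-!
Height inequalities over function fields for affine varieties which are linear over a torus.
-/

set_option autoImplicit false
set_option linter.unusedSectionVars false
set_option linter.overlappingInstances false

open MvPolynomial FF Pool.Agent.W603.LV Filter

namespace Pool.Agent.N754.FV

open Pool.Agent.H159R3.Exp (Laur)
open Pool.Agent.N754.LT (LinOff)

section defs

variable {F : Type} [Field F] {n : ℕ} {ι κ : Type}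

/-- every nonconstant Laurent curve over `Ω` in `V` lies in `V'` -/
def LaurIn (Ω : Type) [Field Ω] [Algebra F Ω] (E : ι → MvPolynomial (Fin n) F)
    (G : κ → MvPolynomial (Fin n) F) : Prop :=
  ∀ v : Ω → Fin n → Ω, (∀ j, Laur fun t => v t j) → (∀ l s, s ≠ 0 → aeval (v s) (E l) = 0) →
    (∃ s t, s ≠ 0 ∧ t ≠ 0 ∧ v s ≠ v t) → ∀ l s, s ≠ 0 → aeval (v s) (G l) = 0

/-- points which are not alone in their fibres are on Laurent curves -/
def Cov (Ω : Type) [Field Ω] [Algebra F Ω] (E : ι → MvPolynomial (Fin n) F)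
    (G : κ → MvPolynomial (Fin n) F) (U : Finset (Fin n)) : Prop :=
  ∀ z z' : Fin n → Ω, (∀ l, aeval z (E l) = 0) → (∃ l, aeval z (G l) ≠ 0) →
    (∀ l, aeval z' (E l) = 0) → (∀ i ∈ U, z' i = z i) → z' ≠ z →
    ∃ v : Ω → Fin n → Ω, (∀ j, Laur fun t => v t j) ∧
      (∀ l s, s ≠ 0 → aeval (v s) (E l) = 0) ∧ v 1 = z ∧ ∃ t, t ≠ 0 ∧ v t ≠ z

theorem cov_of_lin (Ω : Type) [Field Ω] [CharZero Ω] [Algebra F Ω]
    (E : ι → MvPolynomial (Fin n) F) (G : κ → MvPolynomial (Fin n) F) (U : Finset (Fin n))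
    (hlin : ∀ l, LinOff U (E l)) : Cov Ω E G U := by
  intro y z hy _ hz hyz hne
  refine ⟨fun s j => y j + (s - 1) * (z j - y j), fun j => ?_, fun l s _ => ?_, ?_, 2,
    two_ne_zero, ?_⟩
  · have h5 : (fun s : Ω => y j + (s - 1) * (z j - y j)) =
        fun s => y j + (s + (-1)) * (z j + -y j) := by
      funext s
      rw [sub_eq_add_neg s 1, sub_eq_add_neg (z j) (y j)]
    rw [h5]
    exact (Laur.const _).add ((Laur.id.add (Laur.const _)).mul (Laur.const _))
  · rw [line_eval (hlin l) y z hyz, hy, hz, mul_zero, mul_zero, add_zero]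
  · funext j
    show y j + (1 - 1) * (z j - y j) = y j
    rw [sub_self, zero_mul, add_zero]
  · intro h
    apply hne
    funext j
    have h5 : y j + (2 - 1) * (z j - y j) = y j := congrFun h j
    linear_combination h5

end defs

/-- **The height inequality** from the absence of Laurent curves. -/
theorem bound_of_laurIn {k F : Type} [Field k] [IsAlgClosed k] [CharZero k] [Field F] [Algebra k F]
    [IsFF k F] (hWR : WR) (hEMB : EMB) {n : ℕ} (U : Finset (Fin n)) {ι κ : Type} [Finite ι]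
    (E : ι → MvPolynomial (Fin n) F) (G : κ → MvPolynomial (Fin n) F) (Ω : Type) [Field Ω]
    [Algebra F Ω] [IsAlgClosed Ω]
    (hU : ∀ z : Fin n → Ω, (∀ l, aeval z (E l) = 0) → ∀ i ∈ U, z i ≠ 0)
    (hcov : Cov Ω E G U) (hLI : LaurIn Ω E G) :
    ∃ A : ℕ, ∀ (L : Type) [Field L] [Algebra k L] [Algebra F L]
      [IsScalarTower k F L] [FiniteDimensional F L] (S : Finset (Place k L))
      (x : Fin n → L), (∀ i, ∀ P ∉ S, 0 ≤ P.ord (x i)) → (∀ l, aeval x (E l) = 0) →
      (∃ l, aeval x (G l) ≠ 0) →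
      mapDeg k x < (A : ℤ) * (canDeg k L + S.card + 3 * Module.finrank F L) := by
  classical
  by_contra hcon
  push Not at hcon
  choose L i1 i2 i3 i4 i5 S x hx1 hx2 hx3 hx4 using hcon
  let 𝒰 : Ultrafilter ℕ := Filter.hyperfilter ℕ
  let σ : ∀ t, L t →ₐ[F] Ω := fun t => IsAlgClosed.lift
  have hcharF : CharZero F := charZero_of_injective_algebraMap (algebraMap k F).injective
  have hchar : CharZero Ω := charZero_of_injective_algebraMap (algebraMap F Ω).injective
  have hcan : ∀ t, (-2 : ℤ) ≤ canDeg k (L t) := fun t => by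
    have : IsFF k (L t) := Pool.Agent.W603.PV.isFF_of_finite (k := k) (F := F) (L := L t)
    have : CharZero (L t) := charZero_of_injective_algebraMap (algebraMap k (L t)).injective
    exact (hEMB k (L t)).1
  have hW : ∀ t, (1 : ℤ) ≤ canDeg k (L t) + (S t).card + 3 * Module.finrank F (L t) := fun t => by
    have h1 := hcan t
    have h2 : 0 < Module.finrank F (L t) := Module.finrank_pos
    omega
  have hge : ∀ C : ℕ, ∀ᶠ t in (𝒰 : Filter ℕ), C ≤ t := fun C =>
    (Nat.hyperfilter_le_atTop (eventually_ge_atTop C) : _)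
  have hbig : ∀ C : ℝ, ∀ᶠ t in (𝒰 : Filter ℕ), C * ((canDeg k (L t) + (S t).card +
      3 * Module.finrank F (L t) : ℤ) : ℝ) ≤ ((mapDeg k (x t) : ℤ) : ℝ) := by
    intro C
    obtain ⟨C', hC'⟩ := exists_nat_ge C
    filter_upwards [hge C'] with t ht
    have h1 : (((t : ℤ) * (canDeg k (L t) + (S t).card + 3 * Module.finrank F (L t)) : ℤ) : ℝ) ≤
        ((mapDeg k (x t) : ℤ) : ℝ) := by exact_mod_cast hx4 t
    refine le_trans ?_ h1
    have h2 : (1 : ℝ) ≤ ((canDeg k (L t) + (S t).card + 3 * Module.finrank F (L t) : ℤ) : ℝ) := by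
      exact_mod_cast hW t
    have h3 : (C' : ℝ) ≤ (t : ℝ) := by exact_mod_cast ht
    rw [Int.cast_mul, Int.cast_natCast]
    exact mul_le_mul_of_nonneg_right (hC'.trans h3) (by linarith)
  have hpt : ∀ t (Q : MvPolynomial (Fin n) F), aeval (fun i => σ t (x t i)) Q =
      σ t (aeval (x t) Q) := by
    intro t Q
    have h4 : (σ t).comp (aeval (x t)) = aeval (R := F) fun i => σ t (x t i) := by
      apply MvPolynomial.algHom_ext
      intro i
      rw [AlgHom.comp_apply, aeval_X, aeval_X]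
    rw [← h4]
    rfl
  -- no Laurent curves through the points
  have hno : ∀ t (v : Ω → Fin n → Ω), (∀ j, Laur fun s => v s j) →
      (∀ l s, s ≠ 0 → aeval (v s) (E l) = 0) → (v 1 = fun i => σ t (x t i)) →
      (∃ s, s ≠ 0 ∧ v s ≠ fun i => σ t (x t i)) → False := by
    intro t v h1 h2 h3 ⟨s, hs, h4⟩
    obtain ⟨l, hl⟩ := hx3 t
    apply hl
    have h5 := hLI v h1 h2 ⟨s, 1, hs, one_ne_zero, by rw [h3]; exact h4⟩ l 1 one_ne_zero
    rw [h3, hpt] at h5
    exact (map_eq_zero_iff (σ t) (σ t).injective).1 h5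
  have hnonc := nonc hWR hEMB 𝒰 L σ S x U E hU hx1 (fun t l => hx2 t l) hbig
  rcases hnonc with h | ⟨v, h1, h2, h3, h4⟩
  · obtain ⟨t, z, hz1, hz2, hz3⟩ :=
      (gc_second 𝒰 (algebraMap F Ω) U E (fun t i => σ t (x t i)) h).exists
    obtain ⟨l, hl⟩ := hx3 t
    obtain ⟨v, h1, h2, h3, s, hs, h4⟩ := hcov (fun i => σ t (x t i)) z
      (fun l => by rw [hpt, hx2 t l, map_zero])
      ⟨l, fun h0 => hl ((map_eq_zero_iff (σ t) (σ t).injective).1 (by rw [← hpt]; exact h0))⟩
      hz1 hz2 hz3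
    exact hno t v h1 h2 h3 ⟨s, hs, h4⟩
  · obtain ⟨t, w, g1, g2, -, g4, j, g5⟩ := (gc_curve 𝒰 (algebraMap F Ω) ∅ E
      (fun t i => σ t (x t i)) ⟨v, h1, h2, fun i hi => absurd hi (Finset.notMem_empty i), h3,
        h4⟩).exists
    refine hno t w g1 g2 g4 ⟨2, two_ne_zero, fun h => g5 ?_⟩
    rw [h, g4]

/-- Laurent curves from bounded heights -/
theorem laurIn_of_bounded {k F : Type} [Field k] [IsAlgClosed k] [CharZero k] [Field F]
    [Algebra k F] [IsFF k F] (hLH : LH) {n : ℕ} {ι κ : Type}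
    (E : ι → MvPolynomial (Fin n) F) (G : κ → MvPolynomial (Fin n) F) (Ω : Type) [Field Ω]
    [Algebra F Ω] [Algebra.IsAlgebraic F Ω]
    (h : ∀ (L : Type) [Field L] [Algebra k L] [Algebra F L] [IsScalarTower k F L]
      [FiniteDimensional F L] (S : Finset (Place k L)), ∃ B : ℤ, ∀ x : Fin n → L,
      (∀ i, ∀ P ∉ S, 0 ≤ P.ord (x i)) → (∀ l, aeval x (E l) = 0) → (∃ l, aeval x (G l) ≠ 0) →
      mapDeg k x ≤ B) : LaurIn Ω E G := by
  intro v hv hvE hne l s hs
  by_contra hcon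
  obtain ⟨s1, s2, hs1, hs2, hne⟩ := hne
  obtain ⟨L, _, _, _, _, _, τ, S, hLS⟩ := hLH k F Ω n v hv ⟨s1, s2, hs1, hs2, hne⟩ (G l)
    ⟨s, hs, hcon⟩
  obtain ⟨B, hB⟩ := h L S
  obtain ⟨x, ⟨s', hs', hx1⟩, hx2, hx3, hx4⟩ := hLS B
  refine absurd (hB x hx2 (fun l => ?_) ⟨l, hx3⟩) (not_le.2 hx4)
  have h1 : τ (aeval x (E l)) = aeval (fun j => τ (x j)) (E l) := by
    have h4 : τ.comp (aeval x) = aeval (R := F) fun i => τ (x i) := by
      apply MvPolynomial.algHom_ext
      intro i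
      rw [AlgHom.comp_apply, aeval_X, aeval_X]
    rw [← h4]
    rfl
  rw [hx1, hvE l s' hs'] at h1
  exact (map_eq_zero_iff τ τ.injective).1 h1

/-- **The height inequality for components of logarithmic general type.** -/
theorem bound_of_logGT {k F : Type} [Field k] [IsAlgClosed k] [CharZero k] [Field F] [Algebra k F]
    [IsFF k F] (hWR : WR) (hEMB : EMB) {n : ℕ} (U : Finset (Fin n)) {ι : Type} [Finite ι]
    (E : ι → MvPolynomial (Fin n) F) (Ω : Type) [Field Ω] [Algebra F Ω] [IsAlgClosed Ω]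
    (hU : ∀ z : Fin n → Ω, (∀ l, aeval z (E l) = 0) → ∀ i ∈ U, z i ≠ 0)
    (hlin : ∀ l, LinOff U (E l)) (p : Ideal (MvPolynomial (Fin n) F))
    (hp : p ∈ (Ideal.span (Set.range E)).minimalPrimes) (hL : LogGT p) :
    ∃ H, H ∉ p ∧ ∃ A : ℕ, ∀ (L : Type) [Field L] [Algebra k L] [Algebra F L]
      [IsScalarTower k F L] [FiniteDimensional F L] (S : Finset (Place k L))
      (x : Fin n → L), (∀ i, ∀ P ∉ S, 0 ≤ P.ord (x i)) → (∀ Q ∈ p, aeval x Q = 0) →
      aeval x H ≠ 0 → mapDeg k x < (A : ℤ) * (canDeg k L + S.card + 3 * Module.finrank F L) := by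
  classical
  have hprime : p.IsPrime := hp.1.1
  have hEp : ∀ l, E l ∈ p := fun l => hp.1.2 (Ideal.subset_span ⟨l, rfl⟩)
  have hcharF : CharZero F := charZero_of_injective_algebraMap (algebraMap k F).injective
  by_contra hcon
  push Not at hcon
  obtain ⟨M, _, _, v, h1, h2, h3, h4⟩ := genF (k := k) hWR hEMB U E Ω hU hlin p hEp
    (fun H hH C => by
      obtain ⟨L, i1, i2, i3, i4, i5, S, x, h⟩ := hcon H hH C
      exact ⟨L, i1, i2, i3, i4, i5, S, x, h⟩)
  exact not_logGT E hp v h1 h2 h3 h4 hL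

end Pool.Agent.N754.FV
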