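import Pool.Agent.N754.FV.Stm

/-!
Statement: endomorphisms of the affine curves with Euler characteristic at most zero.
-/

set_option autoImplicit false

open MvPolynomial FF Pool.Agent.W603.LV

namespace Pool.Agent.N754.FV

/-- Affine curves of Euler characteristic at most zero have an endomorphism of degree at least
two. -/
def GZ : Prop := ∀ (k K : Type) [Field k] [Field K] [Algebra k K] [CharZero k] [IsAlgClosed k]
  [IsFF k K] (S : Finset (Place k K)), S.Nonempty → euler S ≤ 0 →
  ∃ (φ : K →ₐ[k] K) (N : ℕ), 2 ≤ N ∧ (∀ f, hgt k (φ f) = N * hgt k f) ∧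
    ∀ f, (∀ P ∉ S, 0 ≤ P.ord f) → ∀ P ∉ S, 0 ≤ P.ord (φ f)

end Pool.Agent.N754.FV
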