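import Mathlib
import Pool.Agent.N754.FV.HI
import Pool.Agent.N754.FV.Stm2

/-!
Degrees of maps from affine curves to affine varieties which are linear over a torus.
-/

set_option autoImplicit false
set_option linter.unusedSectionVars false
set_option linter.overlappingInstances false

open MvPolynomial FF Pool.Agent.W603.LV Filter

namespace Pool.Agent.N754.FV

open Pool.Agent.H159R3.Exp (Laur)
open Pool.Agent.N754.LT (LinOff)

/-- **The degree bound** from the absence of Laurent curves, over the constants. -/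
theorem boundC_of_laurIn {k : Type} [Field k] [IsAlgClosed k] [CharZero k] (hWR : WR)
    (hEMB : EMB) (hSP2 : SP2) (hSPL : SPL) {n : ℕ} (U : Finset (Fin n)) {ι κ : Type} [Finite ι]
    (E : ι → MvPolynomial (Fin n) k) (G : κ → MvPolynomial (Fin n) k)
    (hU : ∀ z : Fin n → k, (∀ l, aeval z (E l) = 0) → ∀ i ∈ U, z i ≠ 0)
    (hcov : Cov k E G U) (hLI : LaurIn k E G) :
    ∃ A : ℕ, ∀ (K : Type) [Field K] [Algebra k K] [IsFF k K] (S : Finset (Place k K))
      (x : Fin n → K), (∀ i, ∀ P ∉ S, 0 ≤ P.ord (x i)) → (∀ l, aeval x (E l) = 0) →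
      (∃ l, aeval x (G l) ≠ 0) → mapDeg k x < (A : ℤ) * max (euler S) 1 := by
  classical
  by_contra hcon
  push Not at hcon
  choose K i1 i2 i3 S x hx1 hx2 hx3 hx4 using hcon
  let 𝒰 : Ultrafilter ℕ := Filter.hyperfilter ℕ
  let Ω := AlgebraicClosure (RatFunc k)
  have hΩ : ∃ z : Ω, Transcendental k z := by
    refine ⟨algebraMap (RatFunc k) Ω RatFunc.X, ?_⟩
    rw [transcendental_algebraMap_iff (algebraMap (RatFunc k) Ω).injective]
    exact RatFunc.transcendental_X
  have hchar : CharZero Ω := charZero_of_injective_algebraMap (algebraMap k Ω).injective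
  have hCK : ∀ t, CharZero (K t) := fun t =>
    charZero_of_injective_algebraMap (algebraMap k (K t)).injective
  have hσ : ∀ t, Nonempty (K t →ₐ[k] Ω) := fun t => (hEMB k (K t)).2 Ω hΩ
  let σ : ∀ t, K t →ₐ[k] Ω := fun t => (hσ t).some
  have hcan : ∀ t, (-2 : ℤ) ≤ canDeg k (K t) := fun t => (hEMB k (K t)).1
  have hsz : ∀ t, ((mapDeg k (x t) : ℤ) : ℝ) ≤ sz (S t) (x t) := fun t =>
    mapDeg_le_sz (S t) (x t) (hx1 t)
  have hge : ∀ C : ℕ, ∀ᶠ t in (𝒰 : Filter ℕ), C ≤ t := fun C =>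
    (Nat.hyperfilter_le_atTop (eventually_ge_atTop C) : _)
  have hbig : ∀ C : ℝ, ∀ᶠ t in (𝒰 : Filter ℕ), C * ((max (euler (S t)) 1 : ℤ) : ℝ) ≤
      sz (S t) (x t) := by
    intro C
    obtain ⟨C', hC'⟩ := exists_nat_ge C
    filter_upwards [hge C'] with t ht
    have h1 : (((t : ℤ) * max (euler (S t)) 1 : ℤ) : ℝ) ≤
        ((mapDeg k (x t) : ℤ) : ℝ) := by exact_mod_cast hx4 t
    refine le_trans ?_ (h1.trans (hsz t))
    have h2 : (1 : ℝ) ≤ ((max (euler (S t)) 1 : ℤ) : ℝ) := by exact_mod_cast le_max_right _ _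
    have h3 : (C' : ℝ) ≤ (t : ℝ) := by exact_mod_cast ht
    rw [Int.cast_mul, Int.cast_natCast]
    exact mul_le_mul_of_nonneg_right (hC'.trans h3) (by linarith)
  have hsmall : ∀ (f : ℕ → ℝ) (c : ℝ), (∀ t, f t ≤ c * ((max (euler (S t)) 1 : ℤ) : ℝ)) →
      0 ≤ c → ∀ ε : ℝ, 0 < ε → ∀ᶠ t in (𝒰 : Filter ℕ), f t ≤ ε * sz (S t) (x t) := by
    intro f c hf hc ε hε
    filter_upwards [hbig (c / ε)] with t ht
    refine (hf t).trans ?_
    have h1 := mul_le_mul_of_nonneg_left ht hε.le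
    calc c * ((max (euler (S t)) 1 : ℤ) : ℝ) = ε * (c / ε * ((max (euler (S t)) 1 : ℤ) : ℝ)) := by
          field_simp
      _ ≤ _ := h1
  have hcert : ∀ i ∈ U, ∃ B : MvPolynomial (Fin n) k,
      B * MvPolynomial.X i - 1 ∈ Ideal.span (Set.range E) :=
    fun i hi => unit_certF (Ω := k) E i fun z hz => hU z hz i hi
  have hpt : ∀ t (Q : MvPolynomial (Fin n) k), aeval (fun i => σ t (x t i)) Q =
      σ t (aeval (x t) Q) := by
    intro t Q
    have h4 : (σ t).comp (aeval (x t)) = aeval (R := k) fun i => σ t (x t i) := by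
      apply MvPolynomial.algHom_ext
      intro i
      rw [AlgHom.comp_apply, aeval_X, aeval_X]
    rw [← h4]
    rfl
  have hG : ∀ t, ∃ l, aeval (fun i => σ t (x t i)) (G l) ≠ 0 := by
    intro t
    obtain ⟨l, hl⟩ := hx3 t
    refine ⟨l, ?_⟩
    rw [hpt]
    exact (map_ne_zero_iff (σ t) (σ t).injective).2 hl
  have hseq := seq hWR 𝒰 K σ S x U ∅ E (Eventually.of_forall hx1)
    (fun l => Eventually.of_forall fun t => hx2 t l)
    (fun i hi => by
      obtain ⟨B, hB⟩ := hcert i hi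
      refine ⟨B, Eventually.of_forall fun t => ?_⟩
      have h4 : aeval (x t) (B * MvPolynomial.X i - 1) = 0 := by
        have h5 : Ideal.span (Set.range E) ≤ RingHom.ker (aeval (R := k) (x t)) := by
          rw [Ideal.span_le]
          rintro _ ⟨l, rfl⟩
          exact hx2 t l
        exact h5 hB
      rw [map_sub, map_mul, aeval_X, map_one, sub_eq_zero] at h4
      exact h4)
    (fun C => by
      filter_upwards [hbig (max C 0)] with t ht
      refine le_trans ?_ ht
      have h2 : (1 : ℝ) ≤ ((max (euler (S t)) 1 : ℤ) : ℝ) := by exact_mod_cast le_max_right _ _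
      calc C ≤ max C 0 := le_max_left _ _
        _ = max C 0 * 1 := (mul_one _).symm
        _ ≤ _ := mul_le_mul_of_nonneg_left h2 (le_max_right _ _))
    (hsmall (fun t => ((S t).card : ℝ)) 3 (fun t => by
      have h1 : ((S t).card : ℤ) ≤ 3 * max (euler (S t)) 1 := by
        have h2 := hcan t
        have h3 : euler (S t) = canDeg k (K t) + (S t).card := rfl
        have h4 := le_max_left (euler (S t)) 1
        have h5 := le_max_right (euler (S t)) 1
        omega
      exact_mod_cast h1) (by norm_num))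
    (hsmall (fun t => ((euler (S t) : ℤ) : ℝ)) 1 (fun t => by
      rw [one_mul]
      exact_mod_cast le_max_left _ _) zero_le_one)
    (fun i hi => absurd hi (Finset.notMem_empty i))
  -- no Laurent curves through the points
  have hno : ∀ v : k → Fin n → k, (∀ j, Laur fun s => v s j) →
      (∀ l s, s ≠ 0 → aeval (v s) (E l) = 0) → (∃ l, aeval (v 1) (G l) ≠ 0) →
      (∃ s, s ≠ 0 ∧ v s ≠ v 1) → False := by
    rintro v h1 h2 ⟨l, hl⟩ ⟨s, hs, h4⟩
    exact hl (hLI v h1 h2 ⟨s, 1, hs, one_ne_zero, h4⟩ l 1 one_ne_zero)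
  rcases hseq with ⟨z, h1, h2, h3⟩ | ⟨v, h1, h2, -, h3, h4⟩
  · obtain ⟨t, z, hz1, hz2, hz3⟩ :=
      (gc_second 𝒰 (algebraMap k Ω) U E (fun t i => σ t (x t i))
        ⟨z, h1, fun i hi => h2 i (Finset.mem_union_left _ hi), h3⟩).exists
    obtain ⟨l, hl⟩ := hG t
    obtain ⟨y', z', g1, g2, g3, g4, g5⟩ := hSP2 k k Ω ι n E (G l) U (fun i => σ t (x t i)) z
      (fun l => by rw [hpt, hx2 t l, map_zero]) hz1 hz2 hz3 hl
    obtain ⟨v, h1, h2, h3, s, hs, h4⟩ := hcov y' z' g1 ⟨l, g5⟩ g2 g3 g4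
    exact hno v h1 h2 ⟨l, by rw [h3]; exact g5⟩ ⟨s, hs, by rw [h3]; exact h4⟩
  · obtain ⟨t, w, g1, g2, -, g4, g5⟩ := (gc_curve 𝒰 (algebraMap k Ω) ∅ E
      (fun t i => σ t (x t i)) ⟨v, h1, h2, fun i hi => absurd hi (Finset.notMem_empty i), h3,
        h4⟩).exists
    obtain ⟨l, hl⟩ := hG t
    obtain ⟨v', e1, e2, ⟨j, e3⟩, e4⟩ := hSPL k k Ω ι n E (G l) w g1 g2 g5 (by
      rw [g4]
      exact hl)
    exact hno v' e1 e2 ⟨l, e4⟩ ⟨2, two_ne_zero, fun h => e3 (congrFun h j)⟩

/-- **The degree bound for components of logarithmic general type.** -/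
theorem boundC_of_logGT {k : Type} [Field k] [IsAlgClosed k] [CharZero k] (hWR : WR)
    (hEMB : EMB) {n : ℕ} (U : Finset (Fin n)) {ι : Type}
    (E : ι → MvPolynomial (Fin n) k)
    (hU : ∀ z : Fin n → k, (∀ l, aeval z (E l) = 0) → ∀ i ∈ U, z i ≠ 0)
    (hlin : ∀ l, LinOff U (E l)) (p : Ideal (MvPolynomial (Fin n) k))
    (hp : p ∈ (Ideal.span (Set.range E)).minimalPrimes) (hL : LogGT p) :
    ∃ H, H ∉ p ∧ ∃ A : ℕ, ∀ (K : Type) [Field K] [Algebra k K] [IsFF k K]
      (S : Finset (Place k K)) (x : Fin n → K), (∀ i, ∀ P ∉ S, 0 ≤ P.ord (x i)) →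
      (∀ Q ∈ p, aeval x Q = 0) → aeval x H ≠ 0 → mapDeg k x < (A : ℤ) * max (euler S) 1 := by
  classical
  have hprime : p.IsPrime := hp.1.1
  have hEp : ∀ l, E l ∈ p := fun l => hp.1.2 (Ideal.subset_span ⟨l, rfl⟩)
  by_contra hcon
  push Not at hcon
  obtain ⟨M, _, _, v, h1, h2, h3, h4⟩ := genC (k := k) hWR hEMB U E hU hlin p hEp
    (fun H hH C => by
      obtain ⟨K, i1, i2, i3, S, x, h⟩ := hcon H hH C
      exact ⟨K, i1, i2, i3, S, x, h⟩)
  exact not_logGT E hp v h1 h2 h3 h4 hL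

/-- the height of a coordinate is at most the degree of the map -/
theorem hgt_le_mapDeg {k K : Type} [Field k] [Field K] [Algebra k K] [CharZero k] [IsAlgClosed k]
    [IsFF k K] {n : ℕ} (f : Fin n → K) (j : Fin n) : hgt k (f j) ≤ mapDeg k f := by
  classical
  obtain ⟨T, hT⟩ := exists_supp (k := k) (Finset.univ : Finset (Fin n)) f
  rw [hgt_finset (f j) T fun P hP => hT j (Finset.mem_univ _) P hP]
  unfold mapDeg
  rw [finsum_eq_sum_of_support_subset (s := T)]
  · refine Finset.sum_le_sum fun P _ => ?_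
    have h1 : (-P.ord (f j)).toNat ≤ Finset.univ.sup fun j => (-P.ord (f j)).toNat :=
      Finset.le_sup (f := fun j => (-P.ord (f j)).toNat) (Finset.mem_univ j)
    have h2 : (((-P.ord (f j)).toNat : ℕ) : ℤ) = max (-P.ord (f j)) 0 := Int.ofNat_toNat _
    rw [← h2]
    exact_mod_cast h1
  · intro P hP
    by_contra hPT
    apply hP
    have h1 : (Finset.univ.sup fun j => (-P.ord (f j)).toNat) = 0 := by
      rw [← Nat.bot_eq_zero, Finset.sup_eq_bot_iff]
      intro j _
      have h2 : P.ord (f j) = 0 := by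
        by_contra h3
        exact hPT (hT j (Finset.mem_univ _) P h3)
      rw [h2]
      rfl
    show ((Finset.univ.sup fun j => (-P.ord (f j)).toNat : ℕ) : ℤ) = 0
    rw [h1]
    rfl

/-- a map from a curve with nonpositive Euler characteristic has unbounded composites with the
endomorphisms of the curve -/
theorem exists_large {k K : Type} [Field k] [Field K] [Algebra k K] [CharZero k] [IsAlgClosed k]
    [IsFF k K] (hGZ : GZ) (S : Finset (Place k K)) (hS : euler S ≤ 0) {n : ℕ} (x : Fin n → K)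
    (hx : ∀ j, ∀ P ∉ S, 0 ≤ P.ord (x j)) (hne : ∃ j, ∀ c : k, x j ≠ algebraMap k K c) (B : ℤ) :
    ∃ φ : K →ₐ[k] K, (∀ j, ∀ P ∉ S, 0 ≤ P.ord (φ (x j))) ∧ B < mapDeg k fun j => φ (x j) := by
  classical
  obtain ⟨j, hj⟩ := hne
  have hh : 1 ≤ hgt k (x j) := by
    by_contra hcon
    push Not at hcon
    obtain ⟨c, hc⟩ := const_of_hgt (k := k) (f := x j) (by omega)
    exact hj c hc
  have hSne : S.Nonempty := by
    by_contra hcon
    rw [Finset.not_nonempty_iff_eq_empty] at hcon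
    have h1 : hgt k (x j) = 0 := by
      obtain ⟨T, hT⟩ := exists_supp (k := k) (Finset.univ : Finset (Fin 1)) ![x j]
      rw [hgt_finset (x j) T fun P hP => hT 0 (Finset.mem_univ _) P hP]
      refine Finset.sum_eq_zero fun P _ => ?_
      have h2 : 0 ≤ P.ord (x j) := hx j P (by rw [hcon]; exact Finset.notMem_empty P)
      omega
    omega
  obtain ⟨φ, N, hN, h1, h2⟩ := hGZ k K S hSne hS
  have h3 : ∀ m : ℕ, hgt k ((φ ^ m) (x j)) = N ^ m * hgt k (x j) := by
    intro m
    induction m with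
    | zero => rw [pow_zero, pow_zero, one_mul]; rfl
    | succ m ih =>
      rw [pow_succ']
      show hgt k (φ ((φ ^ m) (x j))) = _
      rw [h1, ih]
      ring
  have h4 : ∀ m : ℕ, ∀ f : K, (∀ P ∉ S, 0 ≤ P.ord f) → ∀ P ∉ S, 0 ≤ P.ord ((φ ^ m) f) := by
    intro m f hf
    induction m with
    | zero => exact hf
    | succ m ih =>
      rw [pow_succ']
      exact h2 _ ih
  obtain ⟨m, hm⟩ := exists_nat_gt B
  refine ⟨φ ^ m, fun j => h4 m _ (hx j), ?_⟩
  refine lt_of_lt_of_le ?_ (hgt_le_mapDeg (fun j => (φ ^ m) (x j)) j)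
  show B < hgt k ((φ ^ m) (x j))
  rw [h3]
  have h5 : (m : ℤ) < N ^ m := by
    have h6 : m < 2 ^ m := Nat.lt_two_pow_self
    have h7 : 2 ^ m ≤ N ^ m := Nat.pow_le_pow_left hN m
    exact_mod_cast h6.trans_le h7
  nlinarith

end Pool.Agent.N754.FV
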