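import Mathlib
import Pool.Agent.N754.FV.CC
import Pool.Agent.N87.FV.RC
import Pool.Agent.TH143.GT.Fam

/-!
Laurent curves from degree bounds for maps from the multiplicative group.
-/

set_option autoImplicit false
set_option linter.unusedSectionVars false
set_option linter.overlappingInstances false

open MvPolynomial FF Pool.Agent.W603.LV Filter

namespace Pool.Agent.N754.FV

open Pool.Agent.H159R3.Exp (Laur)

/-- values of polynomials at a place -/
theorem vaeval {k E : Type} [Field k] [IsAlgClosed k] [CharZero k] [Field E] [Algebra k E]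
    [IsFF k E] {n : ℕ} {P : Place k E}
    {f : Fin n → E} {x : Fin n → k} (h : ∀ j, Ge P 1 (f j - algebraMap k E (x j)))
    (Q : MvPolynomial (Fin n) k) : Ge P 1 (aeval f Q - algebraMap k E (eval x Q)) := by
  induction Q using MvPolynomial.induction_on with
  | C a =>
    rw [aeval_C, eval_C]
    exact Pool.Agent.N87.FV.vconst a
  | add p q hp hq =>
    rw [map_add, map_add]
    exact Pool.Agent.N87.FV.vadd hp hq
  | mul_X p j hp =>
    rw [map_mul, map_mul, aeval_X, eval_X]
    exact Pool.Agent.N87.FV.vmul hp (h j)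

/-- the degree of a constant map -/
theorem mapDeg_const {k E : Type} [Field k] [Field E] [Algebra k E] {n : ℕ} (f : Fin n → E)
    (h : ∀ j, ∃ c : k, f j = algebraMap k E c) : mapDeg k f = 0 := by
  classical
  unfold mapDeg
  rw [finsum_eq_zero_of_forall_eq_zero]
  intro P
  have h1 : (Finset.univ.sup fun j => (-P.ord (f j)).toNat) = 0 := by
    rw [← Nat.bot_eq_zero, Finset.sup_eq_bot_iff]
    intro j _
    have h2 : P.ord (f j) = 0 := by
      obtain ⟨c, hc⟩ := h j
      rw [hc]
      by_cases h0 : c = 0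
      · rw [h0, map_zero, P.ord_zero]
      · exact P.ord_const h0
    rw [h2]
    rfl
  rw [h1]
  rfl

/-- a nonzero constant does not vanish at a place -/
theorem not_ge_const {k E : Type} [Field k] [Field E] [Algebra k E] {P : Place k E} {c : k}
    (hc : c ≠ 0) (h : Ge P 1 (0 - algebraMap k E c)) : False := by
  rcases h with h | h
  · rw [zero_sub, neg_eq_zero] at h
    exact hc ((map_eq_zero_iff _ (algebraMap k E).injective).1 h)
  · rw [zero_sub, P.ord_neg, P.ord_const hc] at h
    omega

/-- Laurent curves from degree bounds for maps from the multiplicative group -/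
theorem laurIn_of_gm {k : Type} [Field k] [IsAlgClosed k] [CharZero k] (hRC : RC) {n : ℕ}
    {ι κ : Type} (E : ι → MvPolynomial (Fin n) k) (G : κ → MvPolynomial (Fin n) k)
    (h : ∀ S : Finset (Place k (RatFunc k)), euler S = 0 → ∃ B : ℤ, ∀ f : Fin n → RatFunc k,
      (∀ j, ∀ P ∉ S, 0 ≤ P.ord (f j)) → (∀ l, aeval f (E l) = 0) → (∃ l, aeval f (G l) ≠ 0) →
      (∃ j, ∀ c : k, f j ≠ algebraMap k (RatFunc k) c) → mapDeg k f ≤ B) : LaurIn k E G := by
  intro v hv hvE ⟨s1, s2, hs1, hs2, hne⟩ l s0 hs0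
  have hFF : IsFF k (RatFunc k) := Pool.Agent.TH143.GT.isFF_ratFunc k
  by_contra hcon
  obtain ⟨S, P0, -, hS, hRS⟩ := hRC k n v hv ⟨s1, s2, hs1, hs2, hne⟩ s0 hs0
  obtain ⟨B, hB⟩ := h S hS
  obtain ⟨f, hf1, hf2, hf3, hf4⟩ := hRS (max B 0)
  refine absurd (hB f hf1 (fun l => hf3 _ fun s hs => ?_) ⟨l, fun h0 => ?_⟩ ?_)
    (not_le.2 ((le_max_left _ _).trans_lt hf2))
  · have h1 := hvE l s hs
    rwa [Pool.Agent.N754.LT.ae_eval] at h1
  · have h1 := vaeval hf4 (G l)
    rw [h0] at h1
    refine not_ge_const ?_ h1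
    rw [← Pool.Agent.N754.LT.ae_eval]
    exact hcon
  · by_contra hcst
    push Not at hcst
    have h1 := mapDeg_const f hcst
    have h2 := le_max_right B 0
    omega

end Pool.Agent.N754.FV
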